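import Pool.Agent.H605.Web.Impl3

/-!
# The arithmetic Kakeya statement for progressions of bounded length: basic forms
-/

set_option autoImplicit false

open Finset Filter

namespace Pool.Agent.H605.Fix

open Pool.Agent.H605.Web

/-- all differences `1, …, N`, progressions of bounded length `k(ε)` -/
def FixedFull : Prop :=
  ∀ ε : ℝ, 0 < ε → ∃ k : ℕ, ∃ N₀ : ℕ, ∀ N : ℕ, N₀ ≤ N → ∀ E : Finset ℤ,
    (∀ d : ℕ, 1 ≤ d → d ≤ N → HasAP E k d) → (N : ℝ) ^ (1 - ε) ≤ (E.card : ℝ)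

/-- sets of differences in `[1, N]`, progressions of bounded length `k(ε)` -/
def FixedSets : Prop :=
  ∀ ε : ℝ, 0 < ε → ∃ k : ℕ, ∃ N₀ : ℕ, ∀ N : ℕ, N₀ ≤ N → ∀ D : Finset ℕ,
    (∀ d ∈ D, 1 ≤ d ∧ d ≤ N) → ∀ E : Finset ℤ, (∀ d ∈ D, HasAP E k d) →
      (D.card : ℝ) ≤ (N : ℝ) ^ ε * (E.card : ℝ)

theorem sets_of_full (h : FixedFull) : FixedSets := by
  intro ε hε
  obtain ⟨δ, hδ⟩ : ∃ δ, δ = ε / 2 := ⟨_, rfl⟩
  have hδ0 : 0 < δ := by rw [hδ]; positivity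
  obtain ⟨k, N₁, hN₁⟩ := h δ hδ0
  obtain ⟨N₂, hN₂⟩ := eventually_atTop.1 (ev_log (2 * ((k : ℝ) + 1)) hδ0)
  refine ⟨k, max (max N₁ N₂) 1, fun N hN D hD E hE => ?_⟩
  have hN1 : N₁ ≤ N := le_trans (le_trans (le_max_left _ _) (le_max_left _ _)) hN
  have hN2 : N₂ ≤ N := le_trans (le_trans (le_max_right _ _) (le_max_left _ _)) hN
  have hN3 : 1 ≤ N := le_trans (le_max_right _ _) hN
  have hNr : (1 : ℝ) ≤ N := by exact_mod_cast hN3
  have hN0 : (0 : ℝ) < N := by linarith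
  have hlog := hN₂ N hN2
  rcases D.eq_empty_or_nonempty with rfl | hne
  · simp only [card_empty, Nat.cast_zero]
    positivity
  have hDpos : (0 : ℝ) < D.card := by exact_mod_cast Finset.card_pos.2 hne
  have hDN : (D.card : ℝ) ≤ N := by
    have : D ⊆ Icc 1 N := fun d hd => mem_Icc.2 (hD d hd)
    have := Finset.card_le_card this
    rw [Nat.card_Icc, Nat.add_sub_cancel] at this
    exact_mod_cast this
  obtain ⟨T, hT1, hT2⟩ := translates D hD hne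
  obtain ⟨E', hE1, hE2⟩ := fill E D T (k : ℝ) (Nat.cast_nonneg _) hE
  have h1 := hN₁ N hN1 E' (fun d hd1 hd2 => hE2 d (hT2 d hd1 hd2))
  have hlog0 : 0 ≤ Real.log N := Real.log_nonneg hNr
  have hE0 : (0 : ℝ) ≤ E.card := Nat.cast_nonneg _
  have hk0 : (0 : ℝ) ≤ k := Nat.cast_nonneg _
  have h1' := h1.trans hE1
  clear hE1 h1 hN₁ hN₂ hE2 hE
  generalize (E.card : ℝ) = e at *
  generalize (D.card : ℝ) = dc at *
  generalize (T.card : ℝ) = tc at *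
  have h2 : tc * dc ≤ 2 * N * (Real.log N + 1) := by
    calc tc * dc ≤ (2 * N / dc * Real.log N + 1) * dc :=
          mul_le_mul_of_nonneg_right hT1 hDpos.le
      _ = 2 * N * Real.log N + dc := by field_simp
      _ ≤ _ := by nlinarith
  have h3 : (N : ℝ) ^ (1 - δ) * dc ≤ (N : ℝ) ^ (1 - δ) * ((N : ℝ) ^ ε * e) := by
    have e2 : (N : ℝ) ^ (1 - δ) * (N : ℝ) ^ ε = N * (N : ℝ) ^ δ := by
      rw [← Real.rpow_add hN0, ← Real.rpow_one_add' hN0.le (by linarith)]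
      congr 1
      linarith
    calc (N : ℝ) ^ (1 - δ) * dc = dc * (N : ℝ) ^ (1 - δ) := by ring
      _ ≤ dc * (tc * ((k : ℝ) + 1) * e) := mul_le_mul_of_nonneg_left h1' hDpos.le
      _ = (tc * dc) * (((k : ℝ) + 1) * e) := by ring
      _ ≤ (2 * N * (Real.log N + 1)) * (((k : ℝ) + 1) * e) :=
          mul_le_mul_of_nonneg_right h2 (by positivity)
      _ = N * (2 * ((k : ℝ) + 1) * (Real.log N + 1)) * e := by ring
      _ ≤ N * (N : ℝ) ^ δ * e := by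
          apply mul_le_mul_of_nonneg_right _ hE0
          exact mul_le_mul_of_nonneg_left hlog hN0.le
      _ = _ := by rw [← e2]; ring
  exact le_of_mul_le_mul_left h3 (by positivity)

/-- residue classes for the primes of `[x, 2x)` in the interval `[1, k x]` -/
def ShortCovering : Prop :=
  ∀ ε : ℝ, 0 < ε → ∃ k : ℕ, ∃ x₀ : ℕ, ∀ x : ℕ, x₀ ≤ x → ∀ a : (p : ℕ) → ZMod p,
    (x : ℝ) ^ (1 - ε) ≤ (Set.ncard {n : ℕ | 1 ≤ n ∧ n ≤ k * x ∧
      ∃ p : ℕ, p.Prime ∧ x ≤ p ∧ p < 2 * x ∧ (n : ZMod p) = a p} : ℝ)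

/-- the primes of `[x, 2x)` -/
noncomputable def PX (x : ℕ) : Finset ℕ := (Ico x (2 * x)).filter Nat.Prime

theorem mem_PX {x p : ℕ} : p ∈ PX x ↔ p.Prime ∧ x ≤ p ∧ p < 2 * x := by
  rw [PX, mem_filter, mem_Ico]; tauto

theorem ncard_eq (x m : ℕ) (a : (p : ℕ) → ZMod p) :
    Set.ncard {n : ℕ | 1 ≤ n ∧ n ≤ m ∧ ∃ p : ℕ, p.Prime ∧ x ≤ p ∧ p < 2 * x ∧ (n : ZMod p) = a p} =
      (open Classical in
        ((Icc 1 m).filter fun n => ∃ p ∈ PX x, (n : ZMod p) = a p)).card := by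
  classical
  rw [← Set.ncard_coe_finset]
  congr 1
  ext n
  rw [Set.mem_ofPred_eq, mem_coe, mem_filter, mem_Icc]
  constructor
  · rintro ⟨h1, h2, p, hp1, hp2, hp3, hn⟩
    exact ⟨⟨h1, h2⟩, p, mem_PX.2 ⟨hp1, hp2, hp3⟩, hn⟩
  · rintro ⟨⟨h1, h2⟩, p, hp, hn⟩
    obtain ⟨hp1, hp2, hp3⟩ := mem_PX.1 hp
    exact ⟨h1, h2, p, hp1, hp2, hp3, hn⟩

end Pool.Agent.H605.Fix
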