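import Pool.Agent.H605.Fix.Basic

/-!
# Compressing an arbitrary set of differences
-/

set_option autoImplicit false

open Finset

namespace Pool.Agent.H605.Fix

open Pool.Agent.H605.Web

/-- the hash function -/
def psi (R p l : ℤ) (x : ℤ) : ℤ := (R * ((l * x) % p)) / p

theorem psi_range {R p : ℤ} (hR : 0 < R) (hp : 0 < p) (l x : ℤ) :
    0 ≤ psi R p l x ∧ psi R p l x < R := by
  have h1 := Int.emod_nonneg (l * x) hp.ne'
  have h2 := Int.emod_lt_of_pos (l * x) hp
  rw [psi]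
  refine ⟨Int.ediv_nonneg (by positivity) hp.le, ?_⟩
  rw [Int.ediv_lt_iff_lt_mul hp]
  nlinarith

/-- additivity up to small errors -/
theorem psi_add {R p : ℤ} (hp : 0 < p) (l a d : ℤ) (j : ℕ) :
    ∃ w e : ℤ, 0 ≤ w ∧ w ≤ j ∧ 0 ≤ e ∧ e ≤ j ∧
      psi R p l a + j * psi R p l d = psi R p l (a + j * d) + R * w - e := by
  obtain ⟨α, hα⟩ : ∃ α, α = (l * a) % p := ⟨_, rfl⟩
  obtain ⟨β, hβ⟩ : ∃ β, β = (l * d) % p := ⟨_, rfl⟩
  have hα1 : 0 ≤ α := by rw [hα]; exact Int.emod_nonneg _ hp.ne'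
  have hα2 : α < p := by rw [hα]; exact Int.emod_lt_of_pos _ hp
  have hβ1 : 0 ≤ β := by rw [hβ]; exact Int.emod_nonneg _ hp.ne'
  have hβ2 : β < p := by rw [hβ]; exact Int.emod_lt_of_pos _ hp
  have hj0 : (0 : ℤ) ≤ j := Int.natCast_nonneg j
  -- the residue of the sum
  have h1 : (l * (a + j * d)) % p = (α + j * β) % p := by
    have h0 : l * (a + j * d) = l * a + j * (l * d) := by ring
    rw [h0]
    have m1 : l * a ≡ α [ZMOD p] := by rw [hα]; exact (Int.mod_modEq _ _).symm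
    have m2 : l * d ≡ β [ZMOD p] := by rw [hβ]; exact (Int.mod_modEq _ _).symm
    exact m1.add (m2.mul_left _)
  have h2 := Int.emod_add_mul_ediv (α + j * β) p
  obtain ⟨w, hw⟩ : ∃ w, w = (α + j * β) / p := ⟨_, rfl⟩
  rw [← hw] at h2
  have hw0 : 0 ≤ w := by rw [hw]; exact Int.ediv_nonneg (by positivity) hp.le
  have hwj : w ≤ j := by
    rw [hw]
    apply Int.lt_add_one_iff.1
    rw [Int.ediv_lt_iff_lt_mul hp]
    nlinarith
  -- the floors
  have e1 := Int.emod_add_mul_ediv (R * α) p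
  have e2 := Int.emod_add_mul_ediv (R * β) p
  have f1 := Int.emod_nonneg (R * α) hp.ne'
  have f2 := Int.emod_lt_of_pos (R * α) hp
  have f3 := Int.emod_nonneg (R * β) hp.ne'
  have f4 := Int.emod_lt_of_pos (R * β) hp
  obtain ⟨ρ₁, hρ₁⟩ : ∃ ρ₁, ρ₁ = (R * α) % p := ⟨_, rfl⟩
  obtain ⟨ρ₂, hρ₂⟩ : ∃ ρ₂, ρ₂ = (R * β) % p := ⟨_, rfl⟩
  rw [← hρ₁] at e1 f1 f2
  rw [← hρ₂] at e2 f3 f4
  obtain ⟨A, hA⟩ : ∃ A, A = R * α / p := ⟨_, rfl⟩
  obtain ⟨B, hB⟩ : ∃ B, B = R * β / p := ⟨_, rfl⟩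
  rw [← hA] at e1
  rw [← hB] at e2
  have g1 : psi R p l a = A := by rw [psi, ← hα, hA]
  have g2 : psi R p l d = B := by rw [psi, ← hβ, hB]
  refine ⟨w, (ρ₁ + j * ρ₂) / p, hw0, hwj, Int.ediv_nonneg (by positivity) hp.le, ?_, ?_⟩
  · apply Int.lt_add_one_iff.1
    rw [Int.ediv_lt_iff_lt_mul hp]
    nlinarith
  · have g3 : psi R p l (a + j * d) = A + j * B - R * w + (ρ₁ + j * ρ₂) / p := by
      rw [psi, h1]
      have h3 : (α + j * β) % p = α + j * β - p * w := by linarith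
      rw [h3]
      have h4 : R * (α + j * β - p * w) = (ρ₁ + j * ρ₂) + p * (A + j * B - R * w) := by
        linear_combination -e1 - (j : ℤ) * e2
      rw [h4, Int.add_mul_ediv_left _ _ hp.ne']
      ring
    rw [g1, g2, g3]
    ring

/-- the number of multipliers with a collision of two given points -/
theorem card_collision {R p : ℕ} (hR : 0 < R) (hp : p.Prime) {d d' : ℤ} (hne : ¬ (p : ℤ) ∣ d - d') :
    ((Ico 1 p).filter fun l : ℕ => psi R p l d = psi R p l d').card ≤ 2 * (p / R) := by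
  classical
  have hp0 : (0 : ℤ) < p := by exact_mod_cast hp.pos
  have hR0 : (0 : ℤ) < R := by exact_mod_cast hR
  have hpi : Prime (p : ℤ) := Nat.prime_iff_prime_int.1 hp
  have hsub : ((Ico 1 p).filter fun l : ℕ => psi R p l d = psi R p l d').card ≤
      ((Icc (-((p / R : ℕ) : ℤ)) ((p / R : ℕ) : ℤ)).erase 0).card := by
    apply Finset.card_le_card_of_injOn (fun l : ℕ => ((l : ℤ) * d) % p - ((l : ℤ) * d') % p)
    · intro l hl
      rw [mem_coe, mem_filter, mem_Ico] at hl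
      obtain ⟨⟨hl1, hl2⟩, hl3⟩ := hl
      rw [mem_coe, mem_erase, mem_Icc]
      obtain ⟨α, hα⟩ : ∃ α, α = ((l : ℤ) * d) % p := ⟨_, rfl⟩
      obtain ⟨β, hβ⟩ : ∃ β, β = ((l : ℤ) * d') % p := ⟨_, rfl⟩
      simp only
      rw [psi, psi, ← hα, ← hβ] at hl3
      rw [← hα, ← hβ]
      have e1 := Int.emod_add_mul_ediv (R * α) p
      have e2 := Int.emod_add_mul_ediv (R * β) p
      have f1 := Int.emod_nonneg (R * α) hp0.ne'
      have f2 := Int.emod_lt_of_pos (R * α) hp0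
      have f3 := Int.emod_nonneg (R * β) hp0.ne'
      have f4 := Int.emod_lt_of_pos (R * β) hp0
      rw [hl3] at e1
      have h1 : R * (α - β) < p := by linarith
      have h2 : -(p : ℤ) < R * (α - β) := by linarith
      refine ⟨?_, ?_, ?_⟩
      · intro h0
        have h3 : (p : ℤ) ∣ (l : ℤ) * d - l * d' := by
          have h4 : ((l : ℤ) * d) % p = ((l : ℤ) * d') % p := by
            rw [← hα, ← hβ]; linarith
          exact Int.ModEq.dvd (show (l : ℤ) * d' ≡ l * d [ZMOD p] from h4.symm)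
        rw [← mul_sub] at h3
        rcases hpi.dvd_or_dvd h3 with h4 | h4
        · have h5 : p ∣ l := by exact_mod_cast h4
          have := Nat.le_of_dvd (by omega) h5
          omega
        · exact hne h4
      · have h3 : -(α - β) ≤ ((p / R : ℕ) : ℤ) := by
          push_cast
          rw [Int.le_ediv_iff_mul_le hR0]
          linarith
        linarith
      · push_cast
        rw [Int.le_ediv_iff_mul_le hR0]
        linarith
    · intro l hl l' hl' hll
      rw [mem_coe, mem_filter, mem_Ico] at hl hl'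
      simp only at hll
      have h1 : (p : ℤ) ∣ ((l : ℤ) - l') * (d - d') := by
        have e1 := Int.emod_add_mul_ediv ((l : ℤ) * d) p
        have e2 := Int.emod_add_mul_ediv ((l : ℤ) * d') p
        have e3 := Int.emod_add_mul_ediv ((l' : ℤ) * d) p
        have e4 := Int.emod_add_mul_ediv ((l' : ℤ) * d') p
        refine ⟨(l : ℤ) * d / p - (l : ℤ) * d' / p - ((l' : ℤ) * d / p - (l' : ℤ) * d' / p), ?_⟩
        linear_combination -e1 + e2 + e3 - e4 + hll
      rcases hpi.dvd_or_dvd h1 with h2 | h2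
      · obtain ⟨c, hc⟩ := h2
        have h3 : (p : ℤ) * c < p * 1 := by linarith [hl.1.2, hl'.1.1, (by exact_mod_cast hl.1.2 : (l : ℤ) < p), (by exact_mod_cast hl'.1.1 : (1 : ℤ) ≤ l')]
        have h4 : (p : ℤ) * (-1) < p * c := by linarith [(by exact_mod_cast hl'.1.2 : (l' : ℤ) < p), (by exact_mod_cast hl.1.1 : (1 : ℤ) ≤ l)]
        have h5 := lt_of_mul_lt_mul_left h3 hp0.le
        have h6 := lt_of_mul_lt_mul_left h4 hp0.le
        have h7 : c = 0 := by omega
        rw [h7, mul_zero] at hc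
        omega
      · exact absurd h2 hne
  refine hsub.trans ?_
  obtain ⟨q, hq⟩ : ∃ q : ℕ, q = p / R := ⟨_, rfl⟩
  rw [← hq, card_erase_of_mem (by rw [mem_Icc]; constructor <;> omega), Int.card_Icc]
  omega

/-- A hash function which is injective on half of `D`. -/
theorem exists_hash (D : Finset ℤ) (hD : D.Nonempty) : ∃ ψ : ℤ → ℤ,
    (∀ x, 0 ≤ ψ x ∧ ψ x < 8 * D.card) ∧
    (∀ (a d : ℤ) (j : ℕ), ∃ w e : ℤ, 0 ≤ w ∧ w ≤ j ∧ 0 ≤ e ∧ e ≤ j ∧
      ψ a + j * ψ d = ψ (a + j * d) + (8 * D.card : ℕ) * w - e) ∧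
    ∃ D' ⊆ D, D.card ≤ 2 * D'.card ∧ Set.InjOn ψ D' := by
  classical
  obtain ⟨s, hs⟩ : ∃ s, s = D.card := ⟨_, rfl⟩
  have hs1 : 1 ≤ s := by rw [hs]; exact Finset.card_pos.2 hD
  -- a large prime
  obtain ⟨B, hB⟩ : ∃ B : ℕ, ∀ d ∈ D, ∀ d' ∈ D, (d - d').natAbs < B := by
    refine ⟨(D ×ˢ D).sup (fun z => (z.1 - z.2).natAbs) + 1, fun d hd d' hd' => ?_⟩
    have := Finset.le_sup (f := fun z : ℤ × ℤ => (z.1 - z.2).natAbs) (s := D ×ˢ D) (b := (d, d'))
      (mem_product.2 ⟨hd, hd'⟩)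
    exact Nat.lt_succ_of_le this
  obtain ⟨p, hpB, hp⟩ := Nat.exists_infinite_primes (B + 2)
  have hdvd : ∀ d ∈ D, ∀ d' ∈ D, d ≠ d' → ¬ (p : ℤ) ∣ d - d' := by
    intro d hd d' hd' hne h
    have h1 : p ∣ (d - d').natAbs := by
      rwa [← Int.natCast_dvd]
    have h2 := Nat.le_of_dvd (Int.natAbs_pos.2 (sub_ne_zero.2 hne)) h1
    have := hB d hd d' hd'
    omega
  obtain ⟨R, hR⟩ : ∃ R, R = 8 * s := ⟨_, rfl⟩
  have hR0 : 0 < R := by omega
  -- the pairs in collision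
  obtain ⟨C, hC⟩ : ∃ C : ℕ → ℕ, C = fun l : ℕ =>
    ((D.offDiag).filter fun z : ℤ × ℤ => psi R p l z.1 = psi R p l z.2).card := ⟨_, rfl⟩
  have hsum : ∑ l ∈ Ico 1 p, C l ≤ s * s * (2 * (p / R)) := by
    have h1 : ∑ l ∈ Ico 1 p, C l = ∑ z ∈ D.offDiag,
        ((Ico 1 p).filter fun l : ℕ => psi R p l z.1 = psi R p l z.2).card := by
      rw [hC]
      simp only [Finset.card_filter]
      rw [Finset.sum_comm]
    rw [h1]
    calc _ ≤ ∑ z ∈ D.offDiag, 2 * (p / R) := by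
          refine Finset.sum_le_sum fun z hz => ?_
          rw [mem_offDiag] at hz
          exact card_collision hR0 hp (hdvd _ hz.1 _ hz.2.1 hz.2.2)
      _ = (D.offDiag).card * (2 * (p / R)) := by rw [Finset.sum_const, smul_eq_mul]
      _ ≤ _ := by
        apply Nat.mul_le_mul_right
        rw [offDiag_card, ← hs]
        exact Nat.sub_le _ _
  have hne : (Ico 1 p).Nonempty := ⟨1, by rw [mem_Ico]; exact ⟨le_rfl, hp.one_lt⟩⟩
  obtain ⟨l, hl, hmin⟩ := Finset.exists_min_image (Ico 1 p) C hne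
  have hCl : 2 * C l ≤ s := by
    have h1 : (p - 1) * C l ≤ s * s * (2 * (p / R)) := by
      calc (p - 1) * C l = ∑ _l' ∈ Ico 1 p, C l := by
            rw [Finset.sum_const, Nat.card_Ico, smul_eq_mul]
        _ ≤ ∑ l' ∈ Ico 1 p, C l' := Finset.sum_le_sum fun l' hl' => hmin l' hl'
        _ ≤ _ := hsum
    have h2 : p / R * R ≤ p := Nat.div_mul_le_self _ _
    have h3 : p ≤ 2 * (p - 1) := by have := hp.two_le; omega
    have h4 : (p - 1) * (s * (8 * C l)) ≤ (p - 1) * (s * (4 * s)) := by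
      calc (p - 1) * (s * (8 * C l)) = (p - 1) * C l * R := by rw [hR]; ring
        _ ≤ s * s * (2 * (p / R)) * R := Nat.mul_le_mul_right _ h1
        _ = s * s * 2 * (p / R * R) := by ring
        _ ≤ s * s * 2 * (2 * (p - 1)) := Nat.mul_le_mul_left _ (h2.trans h3)
        _ = _ := by ring
    have hp1 : 0 < p - 1 := by have := hp.two_le; omega
    have h5 := Nat.le_of_mul_le_mul_left (Nat.le_of_mul_le_mul_left h4 hp1) (by omega : 0 < s)
    omega
  refine ⟨psi R p l, fun x => ?_, fun a d j => ?_, D.filter fun d => ∀ d' ∈ D, d' ≠ d →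
    psi R p l d' ≠ psi R p l d, filter_subset _ _, ?_, ?_⟩
  · have := psi_range (R := R) (p := p) (by exact_mod_cast hR0) (by exact_mod_cast hp.pos) l x
    rw [← hs]
    rw [hR] at this ⊢
    push_cast at this ⊢
    exact this
  · have := psi_add (R := R) (p := p) (by exact_mod_cast hp.pos) l a d j
    rw [← hs, ← hR]
    exact this
  · have h1 : (D.filter fun d => ¬ ∀ d' ∈ D, d' ≠ d → psi R p l d' ≠ psi R p l d).card ≤ C l := by
      have h2 : ∀ d, ∃ d', d ∈ (D.filter fun d => ¬ ∀ d' ∈ D, d' ≠ d →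
          psi R p l d' ≠ psi R p l d) → d' ∈ D ∧ d' ≠ d ∧ psi R p l d' = psi R p l d := by
        intro d
        by_cases hd : d ∈ (D.filter fun d => ¬ ∀ d' ∈ D, d' ≠ d → psi R p l d' ≠ psi R p l d)
        · have hd' := (mem_filter.1 hd).2
          push Not at hd'
          obtain ⟨d', h3, h4, h5⟩ := hd'
          exact ⟨d', fun _ => ⟨h3, h4, h5⟩⟩
        · exact ⟨0, fun h => absurd h hd⟩
      choose f hf using h2
      rw [hC]
      apply Finset.card_le_card_of_injOn (fun d => (d, f d))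
      · intro d hd
        rw [mem_coe] at hd
        obtain ⟨h3, h4, h5⟩ := hf d hd
        rw [mem_coe, mem_filter, mem_offDiag]
        exact ⟨⟨(mem_filter.1 hd).1, h3, h4.symm⟩, h5.symm⟩
      · intro d _ d' _ h
        exact (Prod.mk.inj h).1
    have h6 := Finset.card_filter_add_card_filter_not (s := D)
      (fun d => ∀ d' ∈ D, d' ≠ d → psi R p l d' ≠ psi R p l d)
    rw [← hs] at h6 ⊢
    omega
  · intro d hd d' hd' h
    rw [mem_coe, mem_filter] at hd hd'
    by_contra hcon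
    exact hd.2 d' hd'.1 (fun h' => hcon h'.symm) h.symm

end Pool.Agent.H605.Fix
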