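import Pool.Agent.H605.Fix.Strong

/-!
# Multiples of a set of integers in intervals of bounded relative length
-/

set_option autoImplicit false

open Finset Filter

namespace Pool.Agent.H605.Fix

open Pool.Agent.H605.Web

/-- Every interval of length `k(ε) max A` contains at least `|A| ^ (1 - ε)` integers which are
divisible by some element of `A`, for every finite nonempty set `A` of positive integers. -/
def MultiplesForm : Prop :=
  ∀ ε : ℝ, 0 < ε → ∃ k : ℕ, ∀ A : Finset ℕ, A.Nonempty → (∀ a ∈ A, 1 ≤ a) → ∀ x : ℕ,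
    (A.card : ℝ) ^ (1 - ε) ≤
      (((Ioc x (x + k * A.sup id)).filter fun y => ∃ a ∈ A, a ∣ y).card : ℝ)

theorem multiples_of_allSets (h : AllSets) : MultiplesForm := by
  classical
  intro ε hε
  obtain ⟨k, hk⟩ := h ε hε
  refine ⟨k, fun A hA hA1 x => ?_⟩
  have h1 := hk (A.image fun a : ℕ => (a : ℤ))
    (((Ioc x (x + k * A.sup id)).filter fun y => ∃ a ∈ A, a ∣ y).image fun a : ℕ => (a : ℤ))
    (hA.image _) (by
      intro d hd
      obtain ⟨a, ha, rfl⟩ := mem_image.1 hd
      have ha1 := hA1 a ha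
      refine ⟨((a * (x / a + 1) : ℕ) : ℤ), fun j hj => ?_⟩
      rw [mem_image]
      refine ⟨a * (x / a + 1) + j * a, ?_, by push_cast; ring⟩
      rw [mem_filter, mem_Ioc]
      have e1 := Nat.div_add_mod x a
      have e2 := Nat.mod_lt x ha1
      have e3 : a * (x / a + 1) = a * (x / a) + a := by ring
      have e4 : (j + 1) * a ≤ k * A.sup id :=
        Nat.mul_le_mul (by omega) (Finset.le_sup (f := id) ha)
      have e5 : (j + 1) * a = j * a + a := by ring
      refine ⟨⟨by omega, by omega⟩, a, ha, ?_⟩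
      exact dvd_add (dvd_mul_right _ _) (dvd_mul_left _ _))
  rw [card_image_of_injective _ Nat.cast_injective, card_image_of_injective _ Nat.cast_injective]
    at h1
  exact h1

/-- the finite construction: few multiples in an interval from few positions -/
theorem few_multiples {N k : ℕ} {D : Finset ℕ} (hD : ∀ d ∈ D, 1 ≤ d ∧ d ≤ N) (hne : D.Nonempty)
    (E : Finset ℤ) (hE : ∀ d ∈ D, HasAP E k d) :
    ∃ A : Finset ℕ, A.Nonempty ∧ (∀ a ∈ A, 1 ≤ a) ∧ A.card = D.card ∧ ∃ x : ℕ,
      ((Ioc x (x + k * A.sup id)).filter fun y => ∃ a ∈ A, a ∣ y).card ≤ (k + 1) * E.card := by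
  classical
  have hex : ∀ d : ℕ, ∃ a : ℤ, d ∈ D → ∀ j : ℕ, j ≤ k → a + j * d ∈ E := by
    intro d
    by_cases hd : d ∈ D
    · obtain ⟨a, ha⟩ := hE d hd
      exact ⟨a, fun _ j hj => ha j (by exact_mod_cast hj)⟩
    · exact ⟨0, fun h => absurd h hd⟩
  choose a ha using hex
  -- a lower bound for the first terms
  obtain ⟨m0, hm0⟩ : ∃ m0 : ℤ, ∀ d ∈ D, m0 ≤ a d := by
    obtain ⟨d0, hd0, hmin⟩ := D.exists_min_image a hne
    exact ⟨a d0, hmin⟩
  obtain ⟨b, hb⟩ : ∃ b : ℕ → ℕ, ∀ d ∈ D, (b d : ℤ) = a d - m0 := by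
    refine ⟨fun d => (a d - m0).toNat, fun d hd => ?_⟩
    have := hm0 d hd
    exact Int.toNat_of_nonneg (by omega)
  obtain ⟨B, hB⟩ : ∃ B : ℕ, ∀ d ∈ D, b d ≤ B := ⟨D.sup b, fun d hd => Finset.le_sup hd⟩
  obtain ⟨u, hu⟩ : ∃ u, u = N.factorial := ⟨_, rfl⟩
  have hu0 : 0 < u := by rw [hu]; exact Nat.factorial_pos _
  obtain ⟨v, hv⟩ : ∃ v, v = u * (B + k * N) + 1 := ⟨_, rfl⟩
  -- pairwise coprime
  have hcop : Set.Pairwise (↑D : Set ℕ) (Function.onFun Nat.Coprime fun d => v + u * d) := by
    intro d hd e he hde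
    rw [Function.onFun]
    by_contra hcon
    obtain ⟨q, hq, hq1, hq2⟩ := Nat.Prime.not_coprime_iff_dvd.1 hcon
    have hqu : q ∣ u := by
      have h1 : (q : ℤ) ∣ (u : ℤ) * ((d : ℤ) - e) := by
        have h2 : (q : ℤ) ∣ ((v + u * d : ℕ) : ℤ) := by exact_mod_cast hq1
        have h3 : (q : ℤ) ∣ ((v + u * e : ℕ) : ℤ) := by exact_mod_cast hq2
        have h4 := dvd_sub h2 h3
        have h5 : ((v + u * d : ℕ) : ℤ) - ((v + u * e : ℕ) : ℤ) = (u : ℤ) * ((d : ℤ) - e) := by
          push_cast; ring
        rwa [h5] at h4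
      rcases (Nat.prime_iff_prime_int.1 hq).dvd_or_dvd h1 with h2 | h2
      · exact_mod_cast h2
      · have h3 : q ∣ ((d : ℤ) - e).natAbs := by rwa [← Int.natCast_dvd]
        have h4 : ((d : ℤ) - e).natAbs ≠ 0 := by
          rw [Int.natAbs_ne_zero, sub_ne_zero]
          exact_mod_cast hde
        have h5 := Nat.le_of_dvd (Nat.pos_of_ne_zero h4) h3
        have h6 := hD d hd
        have h7 := hD e he
        rw [hu]
        exact Nat.dvd_factorial hq.pos (by omega)
    have hqv : q ∣ v := by
      have h1 := Nat.dvd_sub hq1 (hqu.mul_right d)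
      rwa [Nat.add_sub_cancel] at h1
    rw [hv] at hqv
    have h1 : q ∣ 1 := by
      have := Nat.dvd_sub hqv (hqu.mul_right (B + k * N))
      rwa [Nat.add_sub_cancel_left] at this
    exact hq.one_lt.ne' (Nat.dvd_one.1 h1)
  -- the Chinese remainder theorem
  have hαlt : ∀ d ∈ D, u * b d < v + u * d := by
    intro d hd
    have h1 : u * b d ≤ u * B := Nat.mul_le_mul_left u (hB d hd)
    have h2 : u * (B + k * N) = u * B + u * (k * N) := by ring
    omega
  obtain ⟨x, hx⟩ := Nat.chineseRemainderOfFinset (fun d => v + u * d - u * b d)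
    (fun d => v + u * d) D (fun d hd => by
      have := hαlt d hd
      omega) hcop
  have hdvd : ∀ d ∈ D, (v + u * d) ∣ x + u * b d := by
    intro d hd
    have h1 := (hαlt d hd).le
    have h2 := (hx d hd).add_right (u * b d)
    rw [Nat.sub_add_cancel h1] at h2
    exact (Nat.modEq_zero_iff_dvd).1 (h2.trans (by rw [Nat.ModEq, Nat.mod_self, Nat.zero_mod]))
  refine ⟨D.image fun d => v + u * d, hne.image _, ?_, ?_, x, ?_⟩
  · intro c hc
    obtain ⟨d, -, rfl⟩ := mem_image.1 hc
    omega
  · apply card_image_of_injective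
    intro d e hde
    simp only at hde
    exact Nat.eq_of_mul_eq_mul_left hu0 (by omega)
  · have hsup : (D.image fun d => v + u * d).sup id ≤ v + u * N := by
      apply Finset.sup_le
      intro c hc
      obtain ⟨d, hd, rfl⟩ := mem_image.1 hc
      have := Nat.mul_le_mul_left u (hD d hd).2
      simp only [id]
      omega
    have hcard : ((Ioc x (x + k * (D.image fun d => v + u * d).sup id)).filter
        fun y => ∃ c ∈ D.image (fun d => v + u * d), c ∣ y).card ≤
        ((range (k + 1) ×ˢ E).image fun z : ℕ × ℤ =>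
          (x : ℤ) + z.1 * v + u * (z.2 - m0)).card := by
      apply Finset.card_le_card_of_injOn (fun y : ℕ => (y : ℤ))
      · intro y hy
        rw [mem_coe, mem_filter, mem_Ioc] at hy
        obtain ⟨⟨hy1, hy2⟩, c, hc, hcy⟩ := hy
        obtain ⟨d, hd, rfl⟩ := mem_image.1 hc
        -- `y = x + α + j (v + u d)`
        have h1 : (v + u * d) ∣ (y + (v + u * d)) - (x + u * b d) := by
          apply Nat.dvd_sub _ (hdvd d hd)
          exact dvd_add hcy (dvd_refl _)
        have h2 := hαlt d hd
        obtain ⟨j', hj'⟩ := h1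
        have hj1 : 1 ≤ j' := by
          rcases Nat.eq_zero_or_pos j' with h0 | h0
          · rw [h0, mul_zero] at hj'
            omega
          · exact h0
        obtain ⟨j, rfl⟩ : ∃ j, j' = j + 1 := ⟨j' - 1, by omega⟩
        have h3 : y = x + u * b d + (v + u * d) * j := by
          have h4 : (v + u * d) * (j + 1) = (v + u * d) * j + (v + u * d) := by ring
          rw [h4] at hj'
          omega
        have hjk : j ≤ k := by
          by_contra hcon
          push Not at hcon
          have h5 : (v + u * d) * (k + 1) ≤ (v + u * d) * j := Nat.mul_le_mul_left _ hcon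
          have h6 : k * (D.image fun d => v + u * d).sup id ≤ k * (v + u * N) :=
            Nat.mul_le_mul_left k hsup
          have h7 : k * (v + u * N) = k * v + u * (k * N) := by ring
          have h8 : (v + u * d) * (k + 1) = k * v + v + u * d * (k + 1) := by ring
          have h9 : u * (k * N) < v := by
            rw [hv]
            have : u * (B + k * N) = u * B + u * (k * N) := by ring
            omega
          omega
        rw [mem_coe, mem_image]
        refine ⟨(j, a d + j * d), ?_, ?_⟩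
        · rw [mem_product, mem_range]
          exact ⟨by simp only; omega, ha d hd j hjk⟩
        · simp only
          rw [h3]
          push_cast
          rw [hb d hd]
          ring
      · intro y _ z _ hyz
        simp only at hyz
        exact_mod_cast hyz
    refine hcard.trans (card_image_le.trans ?_)
    rw [card_product, card_range]

theorem sets_of_multiples (h : MultiplesForm) : FixedSets := by
  classical
  intro ε hε
  obtain ⟨δ, hδ⟩ : ∃ δ, δ = min ε 1 / 2 := ⟨_, rfl⟩
  have hmin : 0 < min ε 1 := lt_min hε one_pos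
  have hδ0 : 0 < δ := by rw [hδ]; positivity
  have hδ1 : 2 * δ ≤ ε := by
    rw [hδ]
    have := min_le_left ε 1
    linarith
  obtain ⟨k, hk⟩ := h δ hδ0
  obtain ⟨N₀, hN₀⟩ := eventually_atTop.1 (ev_pow ((k : ℝ) + 1) hδ0)
  refine ⟨k, max N₀ 1, fun N hN D hD E hE => ?_⟩
  have hN1 : N₀ ≤ N := le_trans (le_max_left _ _) hN
  have hN2 : 1 ≤ N := le_trans (le_max_right _ _) hN
  have hNr : (1 : ℝ) ≤ N := by exact_mod_cast hN2
  have hN0 : (0 : ℝ) < N := by linarith
  rcases D.eq_empty_or_nonempty with rfl | hne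
  · simp only [card_empty, Nat.cast_zero]
    positivity
  have hDN : (D.card : ℝ) ≤ N := by
    have : D ⊆ Icc 1 N := fun d hd => mem_Icc.2 (hD d hd)
    have := Finset.card_le_card this
    rw [Nat.card_Icc, Nat.add_sub_cancel] at this
    exact_mod_cast this
  have hD1 : (1 : ℝ) ≤ D.card := by exact_mod_cast Finset.card_pos.2 hne
  obtain ⟨A, hA1, hA2, hA3, x, hx⟩ := few_multiples hD hne E hE
  have h1 := hk A hA1 hA2 x
  rw [hA3] at h1
  have h2 : (((Ioc x (x + k * A.sup id)).filter fun y => ∃ a ∈ A, a ∣ y).card : ℝ) ≤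
      (k + 1) * E.card := by exact_mod_cast hx
  have h3 := h1.trans h2
  have hE0 : (0 : ℝ) ≤ E.card := Nat.cast_nonneg _
  have h4 := hN₀ N hN1
  generalize (E.card : ℝ) = e at *
  generalize (D.card : ℝ) = dc at *
  have hdc : 0 < dc := by linarith
  calc dc = dc ^ δ * dc ^ (1 - δ) := by
        rw [← Real.rpow_add hdc]; simp
    _ ≤ (N : ℝ) ^ δ * ((k + 1) * e) := by
        apply mul_le_mul _ h3 (by positivity) (by positivity)
        exact Real.rpow_le_rpow hdc.le hDN hδ0.le
    _ ≤ (N : ℝ) ^ δ * ((N : ℝ) ^ δ * e) := by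
        apply mul_le_mul_of_nonneg_left _ (by positivity)
        exact mul_le_mul_of_nonneg_right h4 hE0
    _ = (N : ℝ) ^ (δ + δ) * e := by rw [Real.rpow_add hN0]; ring
    _ ≤ (N : ℝ) ^ ε * e := by
        apply mul_le_mul_of_nonneg_right _ hE0
        exact Real.rpow_le_rpow_of_exponent_le hNr (by linarith)

end Pool.Agent.H605.Fix
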