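import Pool.Agent.H605.Fix.Strong

/-!
# The projection form of the arithmetic Kakeya statement

`ProjForm` is the frozen statement `S07345` of problem MP_169869_co.
-/

set_option autoImplicit false

open Finset Filter

namespace Pool.Agent.H605.Fix

open Pool.Agent.H605.Web

/-- the frozen statement `S07345` of MP_169869_co -/
def ProjForm : Prop :=
  ∀ ε : ℝ, 0 < ε →
    ∃ S : Finset ℚ, (-1 : ℚ) ∉ S ∧
      ∀ A : Finset (ℤ × ℤ),
        ((A.image (fun p : ℤ × ℤ => (p.1 : ℚ) + (-1) * (p.2 : ℚ))).card : ℝ) ≤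
          (max ((A.image (fun p : ℤ × ℤ => (p.2 : ℚ))).card : ℝ)
              ((S.sup (fun r : ℚ =>
                  (A.image (fun p : ℤ × ℤ => (p.1 : ℚ) + r * (p.2 : ℚ))).card) : ℕ) : ℝ))
            ^ (1 + ε)

theorem allSets_of_proj (h : ProjForm) : AllSets := by
  classical
  intro ε hε
  obtain ⟨S, hS1, hS⟩ := h ε hε
  -- a common multiple of the numerators of `1 + r`
  obtain ⟨m, hm⟩ : ∃ m : ℕ, m = ∏ r ∈ S, (1 + r).num.natAbs := ⟨_, rfl⟩
  have hne : ∀ r ∈ S, (1 : ℚ) + r ≠ 0 := by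
    intro r hr h0
    have : r = -1 := by linarith
    exact hS1 (this ▸ hr)
  have hm0 : 0 < m := by
    rw [hm]
    apply Finset.prod_pos
    intro r hr
    exact Int.natAbs_pos.2 (Rat.num_ne_zero.2 (hne r hr))
  have hint : ∀ r : ℚ, ∃ z : ℤ, r ∈ S → (m : ℚ) = (1 + r) * z := by
    intro r
    by_cases hr : r ∈ S
    · have hd : (1 + r).num.natAbs ∣ m := by
        rw [hm]
        exact Finset.dvd_prod_of_mem _ hr
      have hd' : (1 + r).num ∣ (m : ℤ) := by
        rw [← Int.natAbs_dvd_natAbs]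
        simpa using hd
      obtain ⟨c, hc⟩ := hd'
      refine ⟨c * (1 + r).den, fun _ => ?_⟩
      have e1 : (m : ℚ) = ((1 + r).num : ℚ) * c := by exact_mod_cast hc
      have e2 : (1 + r) * ((1 + r).den : ℚ) = (1 + r).num := Rat.mul_den_eq_num _
      push_cast
      rw [e1, ← e2]; ring
    · exact ⟨0, fun h => absurd h hr⟩
  choose z hz using hint
  obtain ⟨v, hv⟩ : ∃ v : ℕ, v = ∑ r ∈ S, (z r).natAbs := ⟨_, rfl⟩
  have hzv : ∀ r ∈ S, (z r).natAbs ≤ v := by
    intro r hr
    rw [hv]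
    exact Finset.single_le_sum (f := fun r => (z r).natAbs) (fun _ _ => Nat.zero_le _) hr
  refine ⟨2 * v + m + 1, fun D E hD hE => ?_⟩
  have hex : ∀ d : ℤ, ∃ a : ℤ, d ∈ D → ∀ j : ℕ, j < 2 * v + m + 1 → a + j * d ∈ E := by
    intro d
    by_cases hd : d ∈ D
    · obtain ⟨a, ha⟩ := hE d hd
      exact ⟨a, fun _ => ha⟩
    · exact ⟨0, fun h => absurd h hd⟩
  choose a ha using hex
  have h1 := hS (D.image fun d => (a d + (v + m : ℕ) * d, a d + (v : ℕ) * d))
  -- the difference projection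
  have c1 : (D.card : ℝ) ≤ (((D.image fun d => (a d + (v + m : ℕ) * d, a d + (v : ℕ) * d)).image
      (fun p : ℤ × ℤ => (p.1 : ℚ) + (-1) * (p.2 : ℚ))).card : ℝ) := by
    rw [Finset.image_image]
    have : (D.image ((fun p : ℤ × ℤ => (p.1 : ℚ) + (-1) * (p.2 : ℚ)) ∘
        fun d => (a d + (v + m : ℕ) * d, a d + (v : ℕ) * d))).card = D.card := by
      apply Finset.card_image_of_injective
      intro d d' hdd
      simp only [Function.comp_apply] at hdd
      push_cast at hdd
      have hmq : (m : ℚ) ≠ 0 := by exact_mod_cast hm0.ne'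
      have : (m : ℚ) * (d : ℚ) = m * d' := by linear_combination hdd
      have := mul_left_cancel₀ hmq this
      exact_mod_cast this
    rw [this]
  -- the other projections
  have c2 : ((D.image fun d => (a d + (v + m : ℕ) * d, a d + (v : ℕ) * d)).image
      (fun p : ℤ × ℤ => (p.2 : ℚ))).card ≤ E.card := by
    have : (D.image fun d => (a d + (v + m : ℕ) * d, a d + (v : ℕ) * d)).image
      (fun p : ℤ × ℤ => (p.2 : ℚ)) ⊆ E.image fun e : ℤ => (e : ℚ) := by
      intro q hq
      rw [Finset.image_image] at hq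
      obtain ⟨d, hd, rfl⟩ := Finset.mem_image.1 hq
      exact Finset.mem_image.2 ⟨a d + (v : ℕ) * d, ha d hd v (by omega), rfl⟩
    exact (Finset.card_le_card this).trans Finset.card_image_le
  have c3 : ∀ r ∈ S, ((D.image fun d => (a d + (v + m : ℕ) * d, a d + (v : ℕ) * d)).image
      (fun p : ℤ × ℤ => (p.1 : ℚ) + r * (p.2 : ℚ))).card ≤ E.card := by
    intro r hr
    have : (D.image fun d => (a d + (v + m : ℕ) * d, a d + (v : ℕ) * d)).image
      (fun p : ℤ × ℤ => (p.1 : ℚ) + r * (p.2 : ℚ)) ⊆ E.image fun e : ℤ => (1 + r) * (e : ℚ) := by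
      intro q hq
      rw [Finset.image_image] at hq
      obtain ⟨d, hd, rfl⟩ := Finset.mem_image.1 hq
      have hzr := hzv r hr
      have hnn : 0 ≤ (v : ℤ) + z r := by omega
      obtain ⟨j, hj⟩ := Int.eq_ofNat_of_zero_le hnn
      refine Finset.mem_image.2 ⟨a d + j * d, ha d hd j ?_, ?_⟩
      · omega
      · have e1 : (m : ℚ) = (1 + r) * z r := hz r hr
        have e2 : (j : ℚ) = v + z r := by exact_mod_cast hj.symm
        simp only [Function.comp_apply]
        push_cast
        rw [e2]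
        linear_combination (-(d : ℚ)) * e1
    exact (Finset.card_le_card this).trans Finset.card_image_le
  have c4 : (max (((D.image fun d => (a d + (v + m : ℕ) * d, a d + (v : ℕ) * d)).image
      (fun p : ℤ × ℤ => (p.2 : ℚ))).card : ℝ) ((S.sup (fun r : ℚ =>
                  ((D.image fun d => (a d + (v + m : ℕ) * d, a d + (v : ℕ) * d)).image
                    (fun p : ℤ × ℤ => (p.1 : ℚ) + r * (p.2 : ℚ))).card) : ℕ) : ℝ)) ≤
        (E.card : ℝ) := by
    apply max_le
    · exact_mod_cast c2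
    · exact_mod_cast Finset.sup_le c3
  have h2 : (D.card : ℝ) ≤ (E.card : ℝ) ^ (1 + ε) := by
    refine c1.trans (h1.trans ?_)
    exact Real.rpow_le_rpow (le_trans (Nat.cast_nonneg _) (le_max_left _ _)) c4 (by linarith)
  have hDpos : (1 : ℝ) ≤ D.card := by exact_mod_cast Finset.card_pos.2 hD
  have hE0 : (0 : ℝ) ≤ E.card := Nat.cast_nonneg _
  have h3 : ((E.card : ℝ) ^ (1 + ε)) ^ (1 / (1 + ε)) = E.card := by
    rw [← Real.rpow_mul hE0, mul_one_div_cancel (by linarith), Real.rpow_one]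
  calc (D.card : ℝ) ^ (1 - ε) ≤ (D.card : ℝ) ^ (1 / (1 + ε)) := by
        apply Real.rpow_le_rpow_of_exponent_le hDpos
        rw [le_div_iff₀ (by linarith)]
        nlinarith
    _ ≤ ((E.card : ℝ) ^ (1 + ε)) ^ (1 / (1 + ε)) :=
        Real.rpow_le_rpow (by linarith) h2 (by positivity)
    _ = _ := h3

end Pool.Agent.H605.Fix
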