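import Pool.Agent.H605.Fix.Proj

/-!
# The projection form from the form for all sets of differences (tensor power trick)
-/

set_option autoImplicit false

open Finset Filter

namespace Pool.Agent.H605.Fix

open Pool.Agent.H605.Web

/-- tensor powers -/
theorem power_set (A : Finset (ℤ × ℤ)) (n : ℕ) :
    ∃ A' : Finset (ℤ × ℤ),
      (A.image fun p : ℤ × ℤ => p.1 - p.2).card ^ n ≤ (A'.image fun p : ℤ × ℤ => p.1 - p.2).card ∧
      ∀ j : ℤ, (A'.image fun p : ℤ × ℤ => j * p.1 + (1 - j) * p.2).card ≤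
        (A.image fun p : ℤ × ℤ => j * p.1 + (1 - j) * p.2).card ^ n := by
  classical
  induction n with
  | zero => exact ⟨{(0, 0)}, by simp, by simp⟩
  | succ n ih =>
    obtain ⟨A', h1, h2⟩ := ih
    obtain ⟨H, hH⟩ : ∃ H : ℕ, ∀ p ∈ A, |p.1 - p.2| ≤ (H : ℤ) := by
      refine ⟨A.sup fun p => (p.1 - p.2).natAbs, fun p hp => ?_⟩
      have : (p.1 - p.2).natAbs ≤ A.sup fun p => (p.1 - p.2).natAbs :=
        Finset.le_sup (f := fun p : ℤ × ℤ => (p.1 - p.2).natAbs) hp
      rw [Int.abs_eq_natAbs]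
      exact_mod_cast this
    refine ⟨(A ×ˢ A').image fun q => (q.1.1 + (2 * (H : ℤ) + 1) * q.2.1,
        q.1.2 + (2 * (H : ℤ) + 1) * q.2.2),
      ?_, fun j => ?_⟩
    · have e1 : ((A.image fun p : ℤ × ℤ => p.1 - p.2) ×ˢ (A'.image fun p : ℤ × ℤ => p.1 - p.2)).card =
          (A.image fun p : ℤ × ℤ => p.1 - p.2).card * (A'.image fun p : ℤ × ℤ => p.1 - p.2).card :=
        Finset.card_product _ _
      have e2 : ((A.image fun p : ℤ × ℤ => p.1 - p.2) ×ˢ
          (A'.image fun p : ℤ × ℤ => p.1 - p.2)).card ≤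
          (((A ×ˢ A').image fun q => (q.1.1 + (2 * (H : ℤ) + 1) * q.2.1,
            q.1.2 + (2 * (H : ℤ) + 1) * q.2.2)).image fun p : ℤ × ℤ => p.1 - p.2).card := by
        apply Finset.card_le_card_of_injOn (fun t : ℤ × ℤ => t.1 + (2 * H + 1) * t.2)
        · intro t ht
          rw [mem_coe, mem_product, mem_image, mem_image] at ht
          obtain ⟨⟨p, hp, hp'⟩, ⟨q, hq, hq'⟩⟩ := ht
          rw [mem_coe, Finset.image_image, mem_image]
          refine ⟨(p, q), mem_product.2 ⟨hp, hq⟩, ?_⟩
          simp only [Function.comp_apply]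
          rw [← hp', ← hq']; ring
        · intro t ht t' ht' htt
          rw [mem_coe, mem_product, mem_image, mem_image] at ht ht'
          obtain ⟨⟨p, hp, hp'⟩, _⟩ := ht
          obtain ⟨⟨p', hp1, hp1'⟩, _⟩ := ht'
          have b1 := hH p hp
          have b2 := hH p' hp1
          rw [hp'] at b1
          rw [hp1'] at b2
          simp only at htt
          have hd : (2 * (H : ℤ) + 1) ∣ t.1 - t'.1 := ⟨t'.2 - t.2, by linear_combination htt⟩
          have hz : t.1 - t'.1 = 0 := by
            apply Int.eq_zero_of_abs_lt_dvd hd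
            rw [abs_le] at b1 b2
            rw [abs_lt]
            omega
          have h1' : t.1 = t'.1 := by omega
          have h2' : t.2 = t'.2 := by
            have : (2 * (H : ℤ) + 1) * t.2 = (2 * H + 1) * t'.2 := by linear_combination htt - hz
            exact mul_left_cancel₀ (by positivity) this
          exact Prod.ext h1' h2'
      calc (A.image fun p : ℤ × ℤ => p.1 - p.2).card ^ (n + 1) =
            (A.image fun p : ℤ × ℤ => p.1 - p.2).card * (A.image fun p : ℤ × ℤ => p.1 - p.2).card ^ n :=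
            by ring
        _ ≤ (A.image fun p : ℤ × ℤ => p.1 - p.2).card * (A'.image fun p : ℤ × ℤ => p.1 - p.2).card :=
            Nat.mul_le_mul le_rfl h1
        _ ≤ _ := by rw [← e1]; exact e2
    · have e3 : (((A ×ˢ A').image fun q => (q.1.1 + (2 * (H : ℤ) + 1) * q.2.1,
            q.1.2 + (2 * (H : ℤ) + 1) * q.2.2)).image fun p : ℤ × ℤ => j * p.1 + (1 - j) * p.2) ⊆
          ((A.image fun p : ℤ × ℤ => j * p.1 + (1 - j) * p.2) ×ˢ
            (A'.image fun p : ℤ × ℤ => j * p.1 + (1 - j) * p.2)).image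
              fun t : ℤ × ℤ => t.1 + (2 * H + 1) * t.2 := by
        intro z hz
        rw [Finset.image_image, mem_image] at hz
        obtain ⟨⟨p, q⟩, hpq, rfl⟩ := hz
        obtain ⟨hp, hq⟩ := mem_product.1 hpq
        refine mem_image.2 ⟨(j * p.1 + (1 - j) * p.2, j * q.1 + (1 - j) * q.2),
          mem_product.2 ⟨mem_image_of_mem _ hp, mem_image_of_mem _ hq⟩, ?_⟩
        simp only [Function.comp_apply]
        ring
      calc _ ≤ (((A.image fun p : ℤ × ℤ => j * p.1 + (1 - j) * p.2) ×ˢ
            (A'.image fun p : ℤ × ℤ => j * p.1 + (1 - j) * p.2)).image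
              fun t : ℤ × ℤ => t.1 + (2 * H + 1) * t.2).card := Finset.card_le_card e3
        _ ≤ ((A.image fun p : ℤ × ℤ => j * p.1 + (1 - j) * p.2) ×ˢ
            (A'.image fun p : ℤ × ℤ => j * p.1 + (1 - j) * p.2)).card := Finset.card_image_le
        _ = (A.image fun p : ℤ × ℤ => j * p.1 + (1 - j) * p.2).card *
            (A'.image fun p : ℤ × ℤ => j * p.1 + (1 - j) * p.2).card := Finset.card_product _ _
        _ ≤ (A.image fun p : ℤ × ℤ => j * p.1 + (1 - j) * p.2).card *
            (A.image fun p : ℤ × ℤ => j * p.1 + (1 - j) * p.2).card ^ n :=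
            Nat.mul_le_mul le_rfl (h2 j)
        _ = _ := by ring

theorem proj_of_allSets (h : AllSets) : ProjForm := by
  classical
  intro ε hε
  have hε1 : 0 < ε / (1 + ε) := by positivity
  obtain ⟨k, hk⟩ := h (ε / (1 + ε)) hε1
  refine ⟨(Ico 1 k).image fun j : ℕ => (1 - (j : ℚ)) / j, ?_, fun A => ?_⟩
  · rw [mem_image]
    rintro ⟨j, hj, hj'⟩
    have hj0 : (j : ℚ) ≠ 0 := by
      have := (mem_Ico.1 hj).1
      positivity
    field_simp at hj'
    linarith
  obtain ⟨M, hM⟩ : ∃ M : ℕ, M = max (A.image (fun p : ℤ × ℤ => (p.2 : ℚ))).card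
      (((Ico 1 k).image fun j : ℕ => (1 - (j : ℚ)) / j).sup (fun r : ℚ =>
                  (A.image (fun p : ℤ × ℤ => (p.1 : ℚ) + r * (p.2 : ℚ))).card)) := ⟨_, rfl⟩
  have hM' : (max ((A.image (fun p : ℤ × ℤ => (p.2 : ℚ))).card : ℝ)
      ((((Ico 1 k).image fun j : ℕ => (1 - (j : ℚ)) / j).sup (fun r : ℚ =>
                  (A.image (fun p : ℤ × ℤ => (p.1 : ℚ) + r * (p.2 : ℚ))).card) : ℕ) : ℝ)) = M := by
    rw [hM, Nat.cast_max]
  rw [hM']
  rcases A.eq_empty_or_nonempty with rfl | hA
  · simp only [image_empty, card_empty, Nat.cast_zero]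
    positivity
  have hM1 : 1 ≤ M := by
    rw [hM]
    exact le_trans (Finset.card_pos.2 (hA.image _)) (le_max_left _ _)
  -- bound for the integer projections
  have hP : ∀ j : ℕ, j < k → (A.image fun p : ℤ × ℤ => (j : ℤ) * p.1 + (1 - j) * p.2).card ≤ M := by
    intro j hj
    rcases Nat.eq_zero_or_pos j with rfl | hj0
    · rw [hM]
      refine le_trans ?_ (le_max_left _ _)
      have : (A.image (fun p : ℤ × ℤ => (p.2 : ℚ))) =
          (A.image fun p : ℤ × ℤ => ((0 : ℕ) : ℤ) * p.1 + (1 - ((0 : ℕ) : ℤ)) * p.2).image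
            fun z : ℤ => (z : ℚ) := by
        rw [Finset.image_image]
        apply Finset.image_congr
        intro p _
        simp
      rw [this, Finset.card_image_of_injective _ Int.cast_injective]
    · rw [hM]
      refine le_trans ?_ (le_max_right _ _)
      have hmem : (1 - (j : ℚ)) / j ∈ (Ico 1 k).image fun j : ℕ => (1 - (j : ℚ)) / j :=
        mem_image_of_mem _ (mem_Ico.2 ⟨hj0, hj⟩)
      refine le_trans ?_ (Finset.le_sup (f := fun r : ℚ =>
        (A.image (fun p : ℤ × ℤ => (p.1 : ℚ) + r * (p.2 : ℚ))).card) hmem)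
      have hj0' : (j : ℚ) ≠ 0 := by positivity
      have : (A.image fun p : ℤ × ℤ => (j : ℤ) * p.1 + (1 - j) * p.2).image (fun z : ℤ => (z : ℚ)) =
          (A.image (fun p : ℤ × ℤ => (p.1 : ℚ) + (1 - (j : ℚ)) / j * (p.2 : ℚ))).image
            fun q => (j : ℚ) * q := by
        rw [Finset.image_image, Finset.image_image]
        apply Finset.image_congr
        intro p _
        simp only [Function.comp_apply]
        push_cast
        field_simp
      rw [← Finset.card_image_of_injective _ (Int.cast_injective (α := ℚ)), this]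
      exact Finset.card_image_le
  -- the difference projection
  have hD : (A.image (fun p : ℤ × ℤ => (p.1 : ℚ) + (-1) * (p.2 : ℚ))).card =
      (A.image fun p : ℤ × ℤ => p.1 - p.2).card := by
    have : (A.image (fun p : ℤ × ℤ => (p.1 : ℚ) + (-1) * (p.2 : ℚ))) =
        (A.image fun p : ℤ × ℤ => p.1 - p.2).image fun z : ℤ => (z : ℚ) := by
      rw [Finset.image_image]
      apply Finset.image_congr
      intro p _
      simp only [Function.comp_apply]
      push_cast; ring
    rw [this, Finset.card_image_of_injective _ Int.cast_injective]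
  rw [hD]
  obtain ⟨dc, hdc⟩ : ∃ dc : ℕ, dc = (A.image fun p : ℤ × ℤ => p.1 - p.2).card := ⟨_, rfl⟩
  rw [← hdc]
  have hdc1 : 1 ≤ dc := by
    rw [hdc]
    exact Finset.card_pos.2 (hA.image _)
  have hdcr : (1 : ℝ) ≤ dc := by exact_mod_cast hdc1
  have hMr : (1 : ℝ) ≤ M := by exact_mod_cast hM1
  have hM0 : (0 : ℝ) < M := by linarith
  -- the power inequality
  have hpow : ∀ n : ℕ, ((dc : ℝ) ^ (1 - ε / (1 + ε))) ^ n ≤ k * (M : ℝ) ^ n := by
    intro n
    obtain ⟨A', h1, h2⟩ := power_set A n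
    rw [← hdc] at h1
    have hne : (A'.image fun p : ℤ × ℤ => p.1 - p.2).Nonempty := by
      rw [← Finset.card_pos]
      exact lt_of_lt_of_le (by positivity) h1
    have h3 := hk (A'.image fun p : ℤ × ℤ => p.1 - p.2)
      ((range k).biUnion fun j => A'.image fun p : ℤ × ℤ => (j : ℤ) * p.1 + (1 - j) * p.2) hne (by
        intro d hd
        obtain ⟨p, hp, rfl⟩ := mem_image.1 hd
        refine ⟨p.2, fun j hj => mem_biUnion.2 ⟨j, mem_range.2 hj, mem_image.2 ⟨p, hp, ?_⟩⟩⟩
        ring)
    have h4 : (((range k).biUnion fun j =>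
        A'.image fun p : ℤ × ℤ => (j : ℤ) * p.1 + (1 - j) * p.2).card : ℝ) ≤ k * (M : ℝ) ^ n := by
      have : ((range k).biUnion fun j =>
        A'.image fun p : ℤ × ℤ => (j : ℤ) * p.1 + (1 - j) * p.2).card ≤ k * M ^ n := by
        refine Finset.card_biUnion_le.trans ?_
        calc _ ≤ ∑ _j ∈ range k, M ^ n := by
              apply Finset.sum_le_sum
              intro j hj
              exact (h2 j).trans (Nat.pow_le_pow_left (hP j (mem_range.1 hj)) n)
          _ = _ := by rw [Finset.sum_const, Finset.card_range, smul_eq_mul]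
      exact_mod_cast this
    have h5 : ((dc : ℝ) ^ (1 - ε / (1 + ε))) ^ n ≤
        ((A'.image fun p : ℤ × ℤ => p.1 - p.2).card : ℝ) ^ (1 - ε / (1 + ε)) := by
      rw [← Real.rpow_natCast, ← Real.rpow_mul (by positivity), mul_comm,
        Real.rpow_mul (by positivity), Real.rpow_natCast]
      apply Real.rpow_le_rpow (by positivity)
      · exact_mod_cast h1
      · rw [sub_nonneg, div_le_one (by linarith)]; linarith
    linarith
  have hle : (dc : ℝ) ^ (1 - ε / (1 + ε)) ≤ M := by
    by_contra hcon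
    push Not at hcon
    obtain ⟨n, hn⟩ := pow_unbounded_of_one_lt (k : ℝ)
      ((one_lt_div hM0).2 hcon)
    rw [div_pow, lt_div_iff₀ (by positivity)] at hn
    linarith [hpow n]
  have e1 : (1 - ε / (1 + ε)) * (1 + ε) = 1 := by field_simp; ring
  calc (dc : ℝ) = ((dc : ℝ) ^ (1 - ε / (1 + ε))) ^ (1 + ε) := by
        rw [← Real.rpow_mul (by linarith), e1, Real.rpow_one]
    _ ≤ _ := Real.rpow_le_rpow (by positivity) hle (by linarith)

end Pool.Agent.H605.Fix
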