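import Pool.Agent.H605.Fix.Multiples
import Pool.Agent.H605.Web.Slab

/-!
# Sets of real numbers and of points of `ℝ^n`
-/

set_option autoImplicit false

open Finset Filter

namespace Pool.Agent.H605.Fix

open Pool.Agent.H605.Web

/-- Q1 of MP_4b405e_nt, as in the frozen statement. -/
def ArithmeticKakeya : Prop :=
  ∀ n : ℕ, ∀ ε : ℝ, 0 < ε → ∃ k : ℕ,
    ∀ B : Set (EuclideanSpace ℝ (Fin n)),
      (∀ d : EuclideanSpace ℝ (Fin n), (∀ i, d i ∈ Set.Icc (0:ℝ) 1) →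
        ∃ a : EuclideanSpace ℝ (Fin n), ∀ j : ℕ, j < k → a + (j : ℝ) • d ∈ B) →
      ∀ δ₀ : ℝ, 0 < δ₀ → ∃ δ : ℝ, 0 < δ ∧ δ < δ₀ ∧
        ∀ S : Finset (EuclideanSpace ℝ (Fin n)),
          B ⊆ (⋃ x ∈ S, Metric.ball x δ) →
          δ ^ (-((n : ℝ) - ε)) ≤ (S.card : ℝ)

/-- the number with the digits `e` -/
noncomputable def val (N : ℕ) (e : ℕ → ℤ) : ℝ := ∑' i, (e i : ℝ) * ((N : ℝ) ^ (i + 1))⁻¹

theorem hasSum_geom {N : ℕ} (hN : 2 ≤ N) :
    HasSum (fun i : ℕ => ((N : ℝ) ^ (i + 1))⁻¹) (1 / ((N : ℝ) - 1)) := by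
  have hNr : (2 : ℝ) ≤ N := by exact_mod_cast hN
  have h := (hasSum_geometric_of_lt_one (r := (N : ℝ)⁻¹) (by positivity)
    (inv_lt_one_of_one_lt₀ (by linarith))).mul_left ((N : ℝ)⁻¹)
  have e1 : (N : ℝ)⁻¹ * (1 - (N : ℝ)⁻¹)⁻¹ = 1 / ((N : ℝ) - 1) := by
    have h1 : (N : ℝ) - 1 ≠ 0 := by linarith
    have h2 : (N : ℝ) ≠ 0 := by linarith
    have h3 : 1 - (N : ℝ)⁻¹ = ((N : ℝ) - 1) / N := by field_simp
    rw [h3, inv_div]
    field_simp
  rw [e1] at h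
  have e2 : (fun i : ℕ => ((N : ℝ) ^ (i + 1))⁻¹) = fun i : ℕ => (N : ℝ)⁻¹ * (N : ℝ)⁻¹ ^ i := by
    funext i
    rw [pow_succ', mul_inv, inv_pow]
  rw [e2]
  exact h

theorem summable_val {N : ℕ} (hN : 2 ≤ N) {C : ℝ} {e : ℕ → ℤ} (he : ∀ i, |(e i : ℝ)| ≤ C) :
    Summable fun i => (e i : ℝ) * ((N : ℝ) ^ (i + 1))⁻¹ := by
  refine Summable.of_norm_bounded ((hasSum_geom hN).summable.mul_left C) fun i => ?_
  rw [norm_mul, Real.norm_eq_abs, Real.norm_eq_abs, abs_of_nonneg (a := ((N : ℝ) ^ (i + 1))⁻¹)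
    (by positivity)]
  exact mul_le_mul_of_nonneg_right (he i) (by positivity)

theorem val_sub {N : ℕ} (hN : 2 ≤ N) {C : ℝ} {e : ℕ → ℤ} (he : ∀ i, |(e i : ℝ)| ≤ C) (m : ℕ) :
    |val N e - ∑ i ∈ range m, (e i : ℝ) * ((N : ℝ) ^ (i + 1))⁻¹| ≤ C * ((N : ℝ) ^ m)⁻¹ := by
  have hNr : (2 : ℝ) ≤ N := by exact_mod_cast hN
  have hC : 0 ≤ C := (abs_nonneg _).trans (he 0)
  have h1 := (summable_val hN he).sum_add_tsum_nat_add m
  have h2 : val N e - ∑ i ∈ range m, (e i : ℝ) * ((N : ℝ) ^ (i + 1))⁻¹ =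
      ∑' i, (e (i + m) : ℝ) * ((N : ℝ) ^ (i + m + 1))⁻¹ := by
    rw [val, ← h1]; ring
  rw [h2]
  have h3 := tsum_of_norm_bounded (f := fun i => (e (i + m) : ℝ) * ((N : ℝ) ^ (i + m + 1))⁻¹)
    ((hasSum_geom hN).mul_left (C * ((N : ℝ) ^ m)⁻¹)) (fun i => by
      rw [norm_mul, Real.norm_eq_abs, Real.norm_eq_abs,
        abs_of_nonneg (a := ((N : ℝ) ^ (i + m + 1))⁻¹) (by positivity)]
      have e1 : ((N : ℝ) ^ (i + m + 1))⁻¹ = ((N : ℝ) ^ m)⁻¹ * ((N : ℝ) ^ (i + 1))⁻¹ := by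
        rw [← mul_inv, ← pow_add]; congr 2; ring
      rw [e1, ← mul_assoc]
      apply mul_le_mul_of_nonneg_right _ (by positivity)
      exact mul_le_mul_of_nonneg_right (he _) (by positivity))
  rw [Real.norm_eq_abs] at h3
  refine h3.trans ?_
  have h4 : 1 / ((N : ℝ) - 1) ≤ 1 := by rw [div_le_one (by linarith)]; linarith
  calc C * ((N : ℝ) ^ m)⁻¹ * (1 / ((N : ℝ) - 1)) ≤ C * ((N : ℝ) ^ m)⁻¹ * 1 :=
        mul_le_mul_of_nonneg_left h4 (by positivity)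
    _ = _ := mul_one _

/-- the point with one coordinate -/
noncomputable def pt (r : ℝ) : EuclideanSpace ℝ (Fin 1) := WithLp.toLp 2 fun _ => r

theorem dist_pt (x y : ℝ) : dist (pt x) (pt y) = |x - y| := by
  rw [EuclideanSpace.dist_eq, Fin.sum_univ_one]
  have : dist ((pt x) 0) ((pt y) 0) = |x - y| := by
    rw [Real.dist_eq]; rfl
  rw [this, Real.sqrt_sq (abs_nonneg _)]

set_option maxHeartbeats 1000000 in
theorem full_of_real (h : ArithmeticKakeya) : FixedFull := by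
  classical
  intro ε hε
  rcases le_or_gt 1 ε with hε1 | hε1
  · -- trivial range
    refine ⟨1, 1, fun N hN E hE => ?_⟩
    have hNr : (1 : ℝ) ≤ N := by exact_mod_cast hN
    obtain ⟨a, ha⟩ := hE 1 le_rfl hN
    have h1 : 0 < E.card := Finset.card_pos.2 ⟨_, ha 0 (by norm_num)⟩
    calc (N : ℝ) ^ (1 - ε) ≤ (N : ℝ) ^ (0 : ℝ) :=
          Real.rpow_le_rpow_of_exponent_le hNr (by linarith)
      _ = 1 := Real.rpow_zero _
      _ ≤ E.card := by exact_mod_cast h1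
  obtain ⟨k, hk⟩ := h 1 (ε / 2) (by positivity)
  refine ⟨k, 2, fun N hN E hE => ?_⟩
  by_contra hcon
  push Not at hcon
  have hNr : (2 : ℝ) ≤ N := by exact_mod_cast hN
  have hN0 : (0 : ℝ) < N := by linarith
  have : NeZero N := ⟨by omega⟩
  obtain ⟨a1, ha1⟩ := hE 1 le_rfl (by omega)
  have hEne : E.Nonempty := ⟨_, ha1 0 (by simp)⟩
  obtain ⟨e₀, he₀⟩ := hEne
  -- the first terms for the digits
  have hA : ∀ c : Fin N, ∃ a : ℤ, ∀ j : ℕ, j < k → a + j * (c : ℕ) ∈ E := by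
    intro c
    rcases Nat.eq_zero_or_pos (c : ℕ) with h0 | h0
    · refine ⟨e₀, fun j _ => ?_⟩
      rw [h0]
      simpa using he₀
    · obtain ⟨a, ha⟩ := hE c h0 c.isLt.le
      exact ⟨a, fun j hj => ha j (by exact_mod_cast hj.le)⟩
  choose A hA using hA
  -- a bound for the elements of `E`
  obtain ⟨C, hC1, hCE⟩ : ∃ C : ℝ, 1 ≤ C ∧ ∀ e ∈ E, |(e : ℝ)| ≤ C := by
    refine ⟨1 + ∑ e ∈ E, |(e : ℝ)|, ?_, fun e he => ?_⟩
    · have : 0 ≤ ∑ e ∈ E, |(e : ℝ)| := Finset.sum_nonneg fun _ _ => abs_nonneg _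
      linarith
    · have := Finset.single_le_sum (f := fun e : ℤ => |(e : ℝ)|) (fun _ _ => abs_nonneg _) he
      linarith
  obtain ⟨B, hB⟩ : ∃ B : Set (EuclideanSpace ℝ (Fin 1)), B =
    {x | ∃ e : ℕ → ℤ, (∀ i, e i ∈ E) ∧ x = pt (val N e)} := ⟨_, rfl⟩
  obtain ⟨Y, hY⟩ : ∃ Y : ℝ, Y = C * N := ⟨_, rfl⟩
  have hY1 : 1 ≤ Y := by rw [hY]; nlinarith
  obtain ⟨δ₀, hδ₀⟩ : ∃ δ₀ : ℝ, δ₀ = min 1 ((2 * Y) ^ (-(2 / ε))) := ⟨_, rfl⟩
  have hδ₀0 : 0 < δ₀ := by rw [hδ₀]; positivity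
  obtain ⟨δ, hδ, hδδ₀, hS⟩ := hk B (by
    intro d hd
    obtain ⟨dig, -, hdig⟩ := Real.ofDigits_SurjOn (b := N) (by omega) (hd 0)
    refine ⟨pt (val N fun i => A (dig i)), fun j hj => ?_⟩
    rw [hB]
    refine ⟨fun i => A (dig i) + j * ((dig i : ℕ) : ℤ), fun i => hA (dig i) j hj, ?_⟩
    have hd' : d = pt (d 0) := by
      ext i
      rw [Subsingleton.elim i 0]
      rfl
    rw [hd', ← hdig]
    have hs1 : Summable fun i => ((A (dig i) : ℤ) : ℝ) * ((N : ℝ) ^ (i + 1))⁻¹ := by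
      obtain ⟨C', hC'⟩ : ∃ C' : ℝ, ∀ c : Fin N, |((A c : ℤ) : ℝ)| ≤ C' :=
        ⟨∑ c, |((A c : ℤ) : ℝ)|, fun c =>
          Finset.single_le_sum (f := fun c => |((A c : ℤ) : ℝ)|) (fun _ _ => abs_nonneg _)
            (mem_univ c)⟩
      exact summable_val hN (C := C') fun i => hC' _
    have hs2 : Summable fun i => (j : ℝ) * (((dig i : ℕ) : ℝ) * ((N : ℝ) ^ (i + 1))⁻¹) :=
      (Real.summable_ofDigitsTerm (digits := dig)).mul_left _
    have e1 : val N (fun i => A (dig i) + j * ((dig i : ℕ) : ℤ)) =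
        val N (fun i => A (dig i)) + j * Real.ofDigits dig := by
      rw [val, val, Real.ofDigits, ← tsum_mul_left]
      rw [← hs1.tsum_add (g := fun i => (j : ℝ) * Real.ofDigitsTerm dig i) hs2]
      refine tsum_congr fun i => ?_
      rw [Real.ofDigitsTerm]
      push_cast
      ring
    rw [e1]
    ext i
    simp [pt]) δ₀ hδ₀0
  have hδ1 : δ < 1 := lt_of_lt_of_le hδδ₀ (by rw [hδ₀]; exact min_le_left _ _)
  -- the level
  have hex : ∃ m : ℕ, C * ((N : ℝ) ^ m)⁻¹ < δ := by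
    obtain ⟨m, hm⟩ := exists_pow_lt_of_lt_one (show 0 < δ / C by positivity)
      (inv_lt_one_of_one_lt₀ (by linarith : (1 : ℝ) < N))
    refine ⟨m, ?_⟩
    rw [inv_pow, lt_div_iff₀ (by linarith)] at hm
    linarith
  obtain ⟨m, hm, hmin⟩ : ∃ m : ℕ, C * ((N : ℝ) ^ m)⁻¹ < δ ∧
      ∀ m' < m, ¬ C * ((N : ℝ) ^ m')⁻¹ < δ :=
    ⟨Nat.find hex, Nat.find_spec hex, fun m' hm' => Nat.find_min hex hm'⟩
  have hm1 : 1 ≤ m := by
    rcases Nat.eq_zero_or_pos m with h0 | h0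
    · rw [h0, pow_zero, inv_one, mul_one] at hm
      linarith
    · exact h0
  have hNm : (N : ℝ) ^ m ≤ Y / δ := by
    have h1 := hmin (m - 1) (by omega)
    push Not at h1
    rw [le_div_iff₀ hδ]
    have h2 : (N : ℝ) ^ m = N * (N : ℝ) ^ (m - 1) := by
      rw [← pow_succ']; congr 1; omega
    have h3 : (0 : ℝ) < (N : ℝ) ^ (m - 1) := by positivity
    rw [← div_eq_mul_inv, le_div_iff₀ h3] at h1
    rw [h2, hY]
    nlinarith
  -- the covering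
  obtain ⟨S, hSd⟩ : ∃ S : Finset (EuclideanSpace ℝ (Fin 1)), S =
    (Fintype.piFinset fun _ : Fin m => E).image fun e =>
      pt (∑ i : Fin m, (e i : ℝ) * ((N : ℝ) ^ ((i : ℕ) + 1))⁻¹) := ⟨_, rfl⟩
  have hScard : S.card ≤ E.card ^ m := by
    rw [hSd]
    refine card_image_le.trans (le_of_eq ?_)
    rw [Fintype.card_piFinset, Finset.prod_const, card_univ, Fintype.card_fin]
  have h1 := hS S (by
    intro x hx
    rw [hB] at hx
    obtain ⟨e, he, rfl⟩ := hx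
    rw [Set.mem_iUnion₂]
    refine ⟨pt (∑ i : Fin m, (e i : ℝ) * ((N : ℝ) ^ ((i : ℕ) + 1))⁻¹), ?_, ?_⟩
    · rw [hSd, mem_image]
      exact ⟨fun i => e i, Fintype.mem_piFinset.2 fun i => he i, rfl⟩
    · rw [Metric.mem_ball, dist_pt]
      have h2 := val_sub hN (C := C) (e := e) (fun i => hCE _ (he i)) m
      rw [Finset.sum_range] at h2
      exact lt_of_le_of_lt h2 hm)
  -- comparison
  have hE0 : (0 : ℝ) < E.card := by
    exact_mod_cast Finset.card_pos.2 ⟨e₀, he₀⟩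
  have h2 : (S.card : ℝ) ≤ (Y / δ) ^ (1 - ε) := by
    calc (S.card : ℝ) ≤ (E.card : ℝ) ^ m := by exact_mod_cast hScard
      _ ≤ ((N : ℝ) ^ (1 - ε)) ^ m := pow_le_pow_left₀ hE0.le hcon.le m
      _ = ((N : ℝ) ^ m) ^ (1 - ε) := by
          rw [← Real.rpow_natCast, ← Real.rpow_natCast, ← Real.rpow_mul hN0.le,
            ← Real.rpow_mul hN0.le]
          congr 1
          ring
      _ ≤ _ := Real.rpow_le_rpow (by positivity) hNm (by linarith)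
  have h3 := h1.trans h2
  have hX : 2 * Y < δ ^ (-(ε / 2)) := by
    have h4 : δ < (2 * Y) ^ (-(2 / ε)) := lt_of_lt_of_le hδδ₀ (by rw [hδ₀]; exact min_le_right _ _)
    have h5 : ((2 * Y) ^ (-(2 / ε))) ^ (-(ε / 2)) < δ ^ (-(ε / 2)) :=
      Real.rpow_lt_rpow_of_neg hδ h4 (by linarith)
    rw [← Real.rpow_mul (by linarith)] at h5
    have e1 : -(2 / ε) * -(ε / 2) = 1 := by field_simp
    rwa [e1, Real.rpow_one] at h5
  have h6 : (Y / δ) ^ (1 - ε) ≤ Y * δ ^ (-(1 - ε)) := by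
    rw [Real.div_rpow (by linarith) hδ.le, Real.rpow_neg hδ.le, div_eq_mul_inv]
    apply mul_le_mul_of_nonneg_right _ (by positivity)
    calc Y ^ (1 - ε) ≤ Y ^ (1 : ℝ) := Real.rpow_le_rpow_of_exponent_le hY1 (by linarith)
      _ = Y := Real.rpow_one _
  have h7 : δ ^ (-(((1 : ℕ) : ℝ) - ε / 2)) = δ ^ (-(ε / 2)) * δ ^ (-(1 - ε)) := by
    rw [← Real.rpow_add hδ]
    congr 1
    push_cast
    ring
  rw [h7] at h3
  have h8 := h3.trans h6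
  have h9 : 0 < δ ^ (-(1 - ε)) := by positivity
  have h10 := le_of_mul_le_mul_right h8 h9
  linarith

end Pool.Agent.H605.Fix
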