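import Pool.Agent.H605.Fix.RealSets

/-!
# From integers to sets in `ℝ^n`
-/

set_option autoImplicit false

open Finset Filter

namespace Pool.Agent.H605.Fix

open Pool.Agent.H605.Web

/-- the count at one scale -/
theorem cover_count {n M k : ℕ} (hM : 1 ≤ M) {δ A : ℝ} (hδ : 0 < δ) (hMδ : M * δ ≤ 1) (hA : 0 ≤ A)
    (hKP : ∀ D : Finset ℕ, (∀ d ∈ D, 1 ≤ d ∧ d ≤ (M + 1) ^ n) → ∀ E : Finset ℤ,
      (∀ d ∈ D, HasAP E k d) → (D.card : ℝ) ≤ A * E.card)
    (B : Set (EuclideanSpace ℝ (Fin n)))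
    (hB : ∀ d : EuclideanSpace ℝ (Fin n), (∀ i, d i ∈ Set.Icc (0:ℝ) 1) →
      ∃ a : EuclideanSpace ℝ (Fin n), ∀ j : ℕ, j < k + 1 → a + (j : ℝ) • d ∈ B)
    (S : Finset (EuclideanSpace ℝ (Fin n))) (hS : B ⊆ (⋃ x ∈ S, Metric.ball x δ)) :
    (((M + 1) ^ n - 1 : ℕ) : ℝ) ≤ A * (3 ^ n * S.card) := by
  classical
  obtain ⟨cd, hcd⟩ : ∃ cd : (Fin n → ℤ) → ℤ, cd = fun z => ∑ i : Fin n, z i * ((M : ℤ) + 1) ^ (i : ℕ) :=
    ⟨_, rfl⟩
  obtain ⟨E, hE⟩ : ∃ E : Finset ℤ, E = (S.biUnion fun x => Fintype.piFinset fun i : Fin n =>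
    Icc (⌊x i / δ⌋ - 1) (⌊x i / δ⌋ + 1)).image cd := ⟨_, rfl⟩
  have hEc : (E.card : ℝ) ≤ 3 ^ n * S.card := by
    have h1 : E.card ≤ S.card * 3 ^ n := by
      rw [hE]
      refine card_image_le.trans ?_
      apply card_biUnion_le_card_mul
      intro x _
      rw [Fintype.card_piFinset]
      apply le_of_eq
      have : ∀ i : Fin n, (Icc (⌊x i / δ⌋ - 1) (⌊x i / δ⌋ + 1)).card = 3 := by
        intro i
        rw [Int.card_Icc]
        omega
      rw [Finset.prod_congr rfl fun i _ => this i, Finset.prod_const, card_univ, Fintype.card_fin]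
    have h2 : (E.card : ℝ) ≤ S.card * 3 ^ n := by exact_mod_cast h1
    linarith
  have h1 := hKP ((univ.erase 0).image (code : (Fin n → Fin (M + 1)) → ℕ)) (by
      intro d hd
      obtain ⟨u, hu, rfl⟩ := mem_image.1 hd
      exact ⟨code_pos (mem_erase.1 hu).1, (code_lt u).le⟩) E (by
      intro d hd
      obtain ⟨u, hu, rfl⟩ := mem_image.1 hd
      obtain ⟨a, ha⟩ := hB (WithLp.toLp 2 fun i => δ * (u i : ℕ)) (by
        intro i
        have h2 : ((u i : ℕ) : ℝ) ≤ M := by exact_mod_cast Nat.lt_succ_iff.1 (u i).isLt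
        show δ * ((u i : ℕ) : ℝ) ∈ Set.Icc (0 : ℝ) 1
        constructor
        · positivity
        · calc δ * ((u i : ℕ) : ℝ) ≤ δ * M := mul_le_mul_of_nonneg_left h2 hδ.le
            _ ≤ 1 := by linarith)
      refine ⟨cd fun i => ⌊a i / δ⌋, fun j hj => ?_⟩
      have hj' : j ≤ k := by exact_mod_cast hj
      have h3 := hS (ha j (by omega))
      rw [Set.mem_iUnion₂] at h3
      obtain ⟨x, hx, hxb⟩ := h3
      rw [hE, mem_image]
      refine ⟨fun i => ⌊a i / δ⌋ + (j : ℤ) * (u i : ℕ), ?_, ?_⟩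
      · rw [mem_biUnion]
        refine ⟨x, hx, Fintype.mem_piFinset.2 fun i => ?_⟩
        have h4 : |a i + j * (δ * (u i : ℕ)) - x i| < δ := by
          rw [Metric.mem_ball, dist_eq_norm] at hxb
          have h5 := PiLp.norm_apply_le
            (a + (j : ℝ) • (WithLp.toLp 2 fun i => δ * (u i : ℕ) : EuclideanSpace ℝ (Fin n)) - x) i
          rw [Real.norm_eq_abs] at h5
          have h6 : (a + (j : ℝ) • (WithLp.toLp 2 fun i => δ * (u i : ℕ) :
              EuclideanSpace ℝ (Fin n)) - x) i = a i + j * (δ * (u i : ℕ)) - x i := by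
            simp
          rw [h6] at h5
          exact lt_of_le_of_lt h5 hxb
        have h7 : ⌊a i / δ⌋ + (j : ℤ) * (u i : ℕ) = ⌊(a i + j * (δ * (u i : ℕ))) / δ⌋ := by
          have e : (a i + j * (δ * (u i : ℕ))) / δ = a i / δ + (((j : ℤ) * (u i : ℕ) : ℤ) : ℝ) := by
            push_cast
            field_simp
          rw [e, Int.floor_add_intCast]
        rw [h7, mem_Icc]
        rw [abs_lt] at h4
        have h8 : x i / δ - 1 < (a i + j * (δ * (u i : ℕ))) / δ := by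
          rw [lt_div_iff₀ hδ, sub_mul, div_mul_cancel₀ _ hδ.ne']
          linarith [h4.1]
        have h9 : (a i + j * (δ * (u i : ℕ))) / δ < x i / δ + 1 := by
          rw [div_lt_iff₀ hδ, add_mul, div_mul_cancel₀ _ hδ.ne']
          linarith [h4.2]
        have b1 := Int.floor_le (x i / δ)
        have b2 := Int.lt_floor_add_one (x i / δ)
        constructor
        · apply Int.le_floor.2
          push_cast
          linarith
        · apply Int.lt_add_one_iff.1
          apply Int.floor_lt.2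
          push_cast
          linarith
      · rw [hcd, code]
        simp only
        push_cast
        rw [Finset.mul_sum, ← Finset.sum_add_distrib]
        refine Finset.sum_congr rfl fun i _ => ?_
        ring)
  rw [card_image_of_injective _ code_inj, card_erase_of_mem (mem_univ _), card_univ,
    Fintype.card_fun, Fintype.card_fin, Fintype.card_fin] at h1
  exact h1.trans (mul_le_mul_of_nonneg_left hEc hA)

theorem real_of_sets (h : FixedSets) : ArithmeticKakeya := by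
  classical
  intro n ε hε
  rcases Nat.eq_zero_or_pos n with hn0 | hn0
  · -- dimension zero
    subst hn0
    refine ⟨1, fun B hB δ₀ hδ₀ => ⟨min (δ₀ / 2) 1, by positivity, ?_, fun S hS => ?_⟩⟩
    · exact lt_of_le_of_lt (min_le_left _ _) (by linarith)
    · obtain ⟨a, ha⟩ := hB 0 (fun i => i.elim0)
      have h1 := hS (ha 0 (by norm_num))
      rw [Set.mem_iUnion₂] at h1
      obtain ⟨x, hx, -⟩ := h1
      have h2 : 0 < S.card := Finset.card_pos.2 ⟨x, hx⟩
      have h3 : (1 : ℝ) ≤ S.card := by exact_mod_cast h2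
      refine le_trans ?_ h3
      apply Real.rpow_le_one (by positivity) (min_le_right _ _)
      simp only [Nat.cast_zero]
      linarith
  · have hnr : (1 : ℝ) ≤ n := by exact_mod_cast hn0
    obtain ⟨η, hη⟩ : ∃ η, η = min ε 1 / (2 * n) := ⟨_, rfl⟩
    have hmin : 0 < min ε 1 := lt_min hε one_pos
    have hη0 : 0 < η := by rw [hη]; positivity
    have hη1 : n * η ≤ ε / 2 := by
      rw [hη]
      have e : (n : ℝ) * (min ε 1 / (2 * n)) = min ε 1 / 2 := by field_simp
      rw [e]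
      have := min_le_left ε 1
      linarith
    have hη2 : η ≤ 1 := by
      rw [hη, div_le_one (by positivity)]
      have := min_le_right ε 1
      linarith
    obtain ⟨k, N₀, hN₀⟩ := h η hη0
    refine ⟨k + 1, fun B hB δ₀ hδ₀ => ?_⟩
    -- the scale
    have hev : ∀ᶠ X : ℝ in atTop, 2 * 3 ^ n ≤ X ^ (ε / 2) :=
      (tendsto_rpow_atTop (by positivity)).eventually_ge_atTop _
    obtain ⟨X₁, hX₁⟩ := eventually_atTop.1 hev
    obtain ⟨X₂, hX₂⟩ : ∃ X₂ : ℝ, X₂ = max (max X₁ N₀) 1 := ⟨_, rfl⟩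
    have hX21 : X₁ ≤ X₂ := by rw [hX₂]; exact le_trans (le_max_left _ _) (le_max_left _ _)
    have hX22 : (N₀ : ℝ) ≤ X₂ := by rw [hX₂]; exact le_trans (le_max_right _ _) (le_max_left _ _)
    have hX23 : 1 ≤ X₂ := by rw [hX₂]; exact le_max_right _ _
    obtain ⟨δ, hδd⟩ : ∃ δ, δ = min (δ₀ / 2) (1 / X₂) := ⟨_, rfl⟩
    have hδ : 0 < δ := by rw [hδd]; positivity
    have hδ1 : δ < δ₀ := by
      rw [hδd]
      exact lt_of_le_of_lt (min_le_left _ _) (by linarith)
    refine ⟨δ, hδ, hδ1, fun S hS => ?_⟩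
    obtain ⟨X, hX⟩ : ∃ X, X = 1 / δ := ⟨_, rfl⟩
    have hXX : X₂ ≤ X := by
      rw [hX, le_div_iff₀ hδ]
      have h1 : δ ≤ 1 / X₂ := by rw [hδd]; exact min_le_right _ _
      rw [le_div_iff₀ (by linarith)] at h1
      linarith
    have hX1 : 1 ≤ X := by linarith
    have hX0 : 0 < X := by linarith
    have hδX : δ = X⁻¹ := by rw [hX]; simp
    obtain ⟨M, hM⟩ : ∃ M, M = ⌊X⌋₊ := ⟨_, rfl⟩
    have hM1 : (M : ℝ) ≤ X := by rw [hM]; exact Nat.floor_le (by linarith)
    have hM2 : X < M + 1 := by rw [hM]; exact Nat.lt_floor_add_one _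
    have hM3 : 1 ≤ M := by rw [hM]; exact Nat.le_floor (by push_cast; linarith)
    obtain ⟨N, hN⟩ : ∃ N, N = (M + 1) ^ n := ⟨_, rfl⟩
    have hMN : M + 1 ≤ N := by
      rw [hN]
      calc M + 1 = (M + 1) ^ 1 := (pow_one _).symm
        _ ≤ (M + 1) ^ n := Nat.pow_le_pow_right (by omega) hn0
    have hNN₀ : N₀ ≤ N := by
      have h1 : (N₀ : ℝ) < M + 1 := by linarith
      have h2 : N₀ < M + 1 := by exact_mod_cast h1
      omega
    have hcount := cover_count (n := n) (M := M) (k := k) hM3 hδ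
      (by rw [hδX, ← div_eq_mul_inv, div_le_one hX0]; exact hM1)
      (A := (N : ℝ) ^ η) (by positivity)
      (fun D hD E hE => hN₀ N hNN₀ D (by rw [hN]; exact hD) E hE) B hB S hS
    rw [← hN] at hcount
    have hNr : (2 : ℝ) ≤ N := by
      have : 2 ≤ N := by omega
      exact_mod_cast this
    have hN0 : (0 : ℝ) < N := by linarith
    have hNX : X ^ (n : ℝ) ≤ N := by
      rw [hN, Real.rpow_natCast]
      push_cast
      exact pow_le_pow_left₀ hX0.le hM2.le n
    have h1 : (N : ℝ) / 2 ≤ ((N - 1 : ℕ) : ℝ) := by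
      rw [Nat.cast_sub (by omega)]
      push_cast
      linarith
    have h2 : (N : ℝ) ^ (1 - η) ≤ 2 * 3 ^ n * S.card := by
      have h3 : (N : ℝ) ^ η * (N : ℝ) ^ (1 - η) ≤ (N : ℝ) ^ η * (2 * 3 ^ n * S.card) := by
        calc (N : ℝ) ^ η * (N : ℝ) ^ (1 - η) = N := by
              rw [← Real.rpow_add hN0]; simp
          _ ≤ 2 * ((N : ℝ) ^ η * (3 ^ n * S.card)) := by linarith
          _ = _ := by ring
      exact le_of_mul_le_mul_left h3 (by positivity)
    have h4 : X ^ ((n : ℝ) - ε / 2) ≤ (N : ℝ) ^ (1 - η) := by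
      calc X ^ ((n : ℝ) - ε / 2) ≤ X ^ ((n : ℝ) * (1 - η)) := by
            apply Real.rpow_le_rpow_of_exponent_le hX1
            linarith
        _ = (X ^ (n : ℝ)) ^ (1 - η) := by rw [Real.rpow_mul hX0.le]
        _ ≤ _ := Real.rpow_le_rpow (by positivity) hNX (by linarith)
    have h5 : 2 * 3 ^ n ≤ X ^ (ε / 2) := hX₁ X (by linarith)
    have h6 : (2 * 3 ^ n) * δ ^ (-((n : ℝ) - ε)) ≤ (2 * 3 ^ n) * (S.card : ℝ) := by
      calc (2 * 3 ^ n) * δ ^ (-((n : ℝ) - ε)) ≤ X ^ (ε / 2) * δ ^ (-((n : ℝ) - ε)) :=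
            mul_le_mul_of_nonneg_right h5 (by positivity)
        _ = X ^ (ε / 2) * X ^ ((n : ℝ) - ε) := by
            rw [hδX, Real.inv_rpow hX0.le, Real.rpow_neg hX0.le, inv_inv]
        _ = X ^ ((n : ℝ) - ε / 2) := by
            rw [← Real.rpow_add hX0]; congr 1; ring
        _ ≤ _ := h4.trans h2
        _ = _ := by ring
    exact le_of_mul_le_mul_left h6 (by positivity)

end Pool.Agent.H605.Fix
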