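import Pool.Agent.H605.Fix.Basic

/-!
# Residue classes modulo the primes of `[x, 2x)` in `[1, k x]`
-/

set_option autoImplicit false

open Finset Filter

namespace Pool.Agent.H605.Fix

open Pool.Agent.H605.Web

open Classical in
/-- the integers of `[1, m]` in the classes `a p`, `p ∈ P` -/
noncomputable def Cv (P : Finset ℕ) (a : (p : ℕ) → ZMod p) (m : ℕ) : Finset ℕ :=
  (Icc 1 m).filter fun n => ∃ p ∈ P, (n : ZMod p) = a p

theorem part_le_Cv {P : Finset ℕ} (hP : ∀ p ∈ P, p.Prime) (a : (p : ℕ) → ZMod p) (v : ℕ) :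
    (Part P (fun p => ((a p).val : ℤ)) 0 v).card ≤ (Cv P a v).card := by
  classical
  apply Finset.card_le_card_of_injOn Int.toNat
  · intro y hy
    rw [mem_coe, mem_Part] at hy
    obtain ⟨⟨h1, h2⟩, p, hp, h3⟩ := hy
    rw [mem_coe, Cv, mem_filter, mem_Icc]
    refine ⟨⟨by omega, by omega⟩, p, hp, ?_⟩
    have : NeZero p := ⟨(hP p hp).ne_zero⟩
    have h4 : ((y.toNat : ℤ) : ZMod p) = (((a p).val : ℤ) : ZMod p) := by
      rw [← sub_eq_zero, ← Int.cast_sub, ZMod.intCast_zmod_eq_zero_iff_dvd]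
      rwa [Int.toNat_of_nonneg (by omega)]
    rw [Int.cast_natCast, Int.cast_natCast, ZMod.natCast_val, ZMod.cast_id', id] at h4
    exact h4
  · intro y hy z hz hyz
    rw [mem_coe, mem_Part] at hy hz
    have h1 := hy.1.1
    have h2 := hz.1.1
    omega

/-- a choice of residues covering few integers of `[1, n]`, from a set with long progressions -/
theorem Cv_le {n : ℕ} (hn : 1 ≤ n) (P : Finset ℕ) (hP : ∀ p ∈ P, p.Prime) (E : Finset ℤ) (K : ℝ)
    (hE : ∀ p ∈ P, HasAP E K p ∧ 2 * (n : ℝ) ≤ K * p) :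
    ∃ a : (p : ℕ) → ZMod p, (Cv P a n).card ≤ E.card := by
  classical
  have h1 : ∀ p : ℕ, ∃ b t : ℤ, p ∈ P → ∀ y : ℤ, t * n < y → y ≤ t * n + n →
      (p : ℤ) ∣ y - b → y ∈ E := by
    intro p
    by_cases hp : p ∈ P
    · obtain ⟨⟨b, hb⟩, hK⟩ := hE p hp
      have hppos : (0 : ℤ) < p := by exact_mod_cast (hP p hp).pos
      refine ⟨b, (b + n - 1) / n, fun _ y hy1 hy2 hy3 => ?_⟩
      have hn0 : (0 : ℤ) < n := by exact_mod_cast hn
      have h2 := Int.emod_nonneg (b + n - 1) hn0.ne'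
      have h3 := Int.emod_lt_of_pos (b + n - 1) hn0
      have h4 := Int.emod_add_mul_ediv (b + n - 1) n
      have h5 : b ≤ (b + n - 1) / n * n := by linarith
      have h6 : (b + n - 1) / n * n ≤ b + n - 1 := by linarith
      obtain ⟨c, hc⟩ := hy3
      have hc0 : 0 ≤ c := by
        by_contra hcon
        push Not at hcon
        have : (p : ℤ) * c < 0 := mul_neg_of_pos_of_neg hppos hcon
        linarith
      obtain ⟨j, rfl⟩ := Int.eq_ofNat_of_zero_le hc0
      have h7 : y = b + j * p := by linarith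
      rw [h7]
      apply hb
      have h8 : (j : ℤ) * p ≤ 2 * n := by linarith
      have h9 : (j : ℝ) * p ≤ K * p := by
        have : (j : ℝ) * p ≤ 2 * n := by exact_mod_cast h8
        linarith
      exact le_of_mul_le_mul_right h9 (by exact_mod_cast (hP p hp).pos)
    · exact ⟨0, 0, fun h => absurd h hp⟩
  choose b t hbt using h1
  refine ⟨fun p => ((b p - t p * n : ℤ) : ZMod p), ?_⟩
  have h2 : ∀ y ∈ Cv P (fun p => ((b p - t p * n : ℤ) : ZMod p)) n, ∃ e ∈ E, (n : ℤ) ∣ e - y := by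
    intro y hy
    rw [Cv, mem_filter, mem_Icc] at hy
    obtain ⟨⟨h3, h4⟩, p, hp, h5⟩ := hy
    have h6 : (p : ℤ) ∣ (y + t p * n) - b p := by
      have h7 : ((y - (b p - t p * n) : ℤ) : ZMod p) = 0 := by
        rw [Int.cast_sub, sub_eq_zero]
        rw [← h5]
        push_cast
        rfl
      rw [ZMod.intCast_zmod_eq_zero_iff_dvd] at h7
      have h8 : (y : ℤ) - (b p - t p * n) = (y + t p * n) - b p := by ring
      rwa [h8] at h7
    refine ⟨y + t p * n, hbt p hp _ (by omega) (by omega) h6, ?_⟩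
    exact ⟨t p, by ring⟩
  choose! e he1 he2 using h2
  apply Finset.card_le_card_of_injOn e (fun y hy => he1 y hy)
  intro y hy z hz hyz
  have h3 := he2 y hy
  have h4 := he2 z hz
  rw [mem_coe, Cv, mem_filter, mem_Icc] at hy hz
  rw [← hyz] at h4
  have h5 : (n : ℤ) ∣ (z : ℤ) - y := by
    have := dvd_sub h3 h4
    have h6 : e y - (y : ℤ) - (e y - z) = z - y := by ring
    rwa [h6] at this
  obtain ⟨c, hc⟩ := h5
  have hn0 : (0 : ℤ) < n := by exact_mod_cast hn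
  have h7 : (n : ℤ) * c < n * 1 := by
    have := hy.1.1
    have := hz.1.2
    linarith
  have h8 : (n : ℤ) * (-1) < n * c := by
    have := hy.1.2
    have := hz.1.1
    linarith
  have h9 := lt_of_mul_lt_mul_left h7 hn0.le
  have h10 := lt_of_mul_lt_mul_left h8 hn0.le
  have h11 : c = 0 := by omega
  rw [h11, mul_zero] at hc
  omega

theorem short_of_sets (h : FixedSets) : ShortCovering := by
  classical
  intro ε hε
  obtain ⟨δ, hδ⟩ : ∃ δ, δ = min ε 1 / 4 := ⟨_, rfl⟩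
  have hmin : 0 < min ε 1 := lt_min hε one_pos
  have hδ0 : 0 < δ := by rw [hδ]; positivity
  have hδ1 : 4 * δ ≤ ε := by
    rw [hδ]
    have := min_le_left ε 1
    linarith
  have hδ2 : 4 * δ ≤ 1 := by
    rw [hδ]
    have := min_le_right ε 1
    linarith
  obtain ⟨k, N₀, hN₀⟩ := h δ hδ0
  have hdy := tendsto_natCast_atTop_atTop.eventually
    (Pool.Agent.H170R2.PC.dyadic_primes hδ0 (by linarith))
  have hev : ∀ᶠ x : ℕ in atTop, ∀ a : (p : ℕ) → ZMod p,
      (x : ℝ) ^ (1 - ε) ≤ ((Cv (PX x) a (2 * (k + 1) * x)).card : ℝ) := by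
    filter_upwards [hdy, ev_pow 2 hδ0, eventually_ge_atTop N₀, eventually_ge_atTop 1] with
      x h1 h2 h3 h4 a
    have hx : (1 : ℝ) ≤ x := by exact_mod_cast h4
    have hx0 : (0 : ℝ) < x := by linarith
    have h5 := h1 (PX x) (fun p hp hp1 hp2 => mem_PX.2 ⟨hp, by exact_mod_cast hp1,
      by exact_mod_cast hp2⟩)
    have hD : ∀ d ∈ PX x, 1 ≤ d ∧ d ≤ 2 * x := by
      intro d hd
      have := mem_PX.1 hd
      exact ⟨this.1.one_le, this.2.2.le⟩
    have h6 := windows hD (fun E hE => hN₀ (2 * x) (by omega) (PX x) hD E hE)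
      (fun p => ((a p).val : ℤ)) (2 * (k + 1) * x) (by push_cast; linarith) 0 1
    have h7 := part_le_Cv (fun p hp => (mem_PX.1 hp).1) a (2 * (k + 1) * x) (P := PX x)
    rw [Nat.cast_one, one_mul, zero_add] at h6
    have e0 : ((1 : ℕ) : ℤ) * ((2 * (k + 1) * x : ℕ) : ℤ) = ((2 * (k + 1) * x : ℕ) : ℤ) := by
      rw [Nat.cast_one, one_mul]
    rw [e0] at h6
    have h8 : ((Part (PX x) (fun p => ((a p).val : ℤ)) 0 (2 * (k + 1) * x : ℕ)).card : ℝ) ≤
        ((Cv (PX x) a (2 * (k + 1) * x)).card : ℝ) := by exact_mod_cast h7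
    obtain ⟨S, hS⟩ : ∃ S : ℝ, S = ((Cv (PX x) a (2 * (k + 1) * x)).card : ℝ) := ⟨_, rfl⟩
    rw [← hS] at h8 ⊢
    have h9 : (x : ℝ) ^ (1 - δ) ≤ (2 * x : ℝ) ^ δ * S := by
      refine h5.trans (h6.trans ?_)
      push_cast
      exact mul_le_mul_of_nonneg_left h8 (by positivity)
    have h10 : (2 * x : ℝ) ^ δ ≤ (x : ℝ) ^ δ * (x : ℝ) ^ δ := by
      rw [Real.mul_rpow (by norm_num) hx0.le]
      apply mul_le_mul_of_nonneg_right _ (by positivity)
      calc (2 : ℝ) ^ δ ≤ (2 : ℝ) ^ (1 : ℝ) :=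
            Real.rpow_le_rpow_of_exponent_le (by norm_num) (by linarith)
        _ = 2 := Real.rpow_one _
        _ ≤ _ := h2
    have hS0 : 0 ≤ S := by rw [hS]; exact Nat.cast_nonneg _
    have h11 : (x : ℝ) ^ (1 - ε) * ((x : ℝ) ^ δ * (x : ℝ) ^ δ) ≤
        S * ((x : ℝ) ^ δ * (x : ℝ) ^ δ) := by
      calc (x : ℝ) ^ (1 - ε) * ((x : ℝ) ^ δ * (x : ℝ) ^ δ) = (x : ℝ) ^ (1 - ε + (δ + δ)) := by
            rw [← Real.rpow_add hx0, ← Real.rpow_add hx0]
        _ ≤ (x : ℝ) ^ (1 - δ) := Real.rpow_le_rpow_of_exponent_le hx (by linarith)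
        _ ≤ (2 * x : ℝ) ^ δ * S := h9
        _ ≤ ((x : ℝ) ^ δ * (x : ℝ) ^ δ) * S := mul_le_mul_of_nonneg_right h10 hS0
        _ = _ := by ring
    exact le_of_mul_le_mul_right h11 (by positivity)
  obtain ⟨x₀, hx₀⟩ := eventually_atTop.1 hev
  refine ⟨2 * (k + 1), x₀, fun x hx a => ?_⟩
  rw [ncard_eq]
  exact hx₀ x hx a

theorem full_of_short (h : ShortCovering) : FixedFull := by
  classical
  intro ε hε
  obtain ⟨δ, hδ⟩ : ∃ δ, δ = min ε 1 / 4 := ⟨_, rfl⟩
  have hmin : 0 < min ε 1 := lt_min hε one_pos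
  have hδ0 : 0 < δ := by rw [hδ]; positivity
  have hδ1 : 4 * δ ≤ ε := by
    rw [hδ]
    have := min_le_left ε 1
    linarith
  have hδ2 : 4 * δ ≤ 1 := by
    rw [hδ]
    have := min_le_right ε 1
    linarith
  obtain ⟨k, x₀, hx₀⟩ := h δ hδ0
  obtain ⟨N₂, hN₂⟩ := eventually_atTop.1 (ev_pow 4 hδ0)
  refine ⟨2 * k, max (max (2 * x₀) N₂) 2, fun N hN E hE => ?_⟩
  have hN1 : 2 * x₀ ≤ N := le_trans (le_trans (le_max_left _ _) (le_max_left _ _)) hN
  have hN2 : N₂ ≤ N := le_trans (le_trans (le_max_right _ _) (le_max_left _ _)) hN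
  have hN3 : 2 ≤ N := le_trans (le_max_right _ _) hN
  have hNr : (1 : ℝ) ≤ N := by exact_mod_cast (by omega : 1 ≤ N)
  have hN0 : (0 : ℝ) < N := by linarith
  obtain ⟨x, hx⟩ : ∃ x, x = N / 2 := ⟨_, rfl⟩
  have hx1 : 1 ≤ x := by omega
  have hx2 : x₀ ≤ x := by omega
  have hx3 : 2 * x ≤ N := by omega
  have hx4 : N ≤ 4 * x := by omega
  have hxr : (1 : ℝ) ≤ x := by exact_mod_cast hx1
  have hx4r : (N : ℝ) ≤ 4 * x := by exact_mod_cast hx4
  have h4 := hN₂ N hN2
  -- `k ≥ 1`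
  have hk : 1 ≤ k := by
    rcases Nat.eq_zero_or_pos k with h0 | h0
    · have h5 := hx₀ x hx2 (fun _ => 0)
      rw [ncard_eq, h0, zero_mul] at h5
      have h6 : (0 : ℝ) < (x : ℝ) ^ (1 - δ) := by positivity
      simp at h5
      linarith
    · exact h0
  obtain ⟨a, ha⟩ := Cv_le (n := k * x) (by nlinarith) (PX x) (fun p hp => (mem_PX.1 hp).1) E
    ((2 * k : ℕ) : ℝ) (fun p hp => by
      obtain ⟨hp1, hp2, hp3⟩ := mem_PX.1 hp
      refine ⟨hE p hp1.one_le (by omega), ?_⟩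
      have : (x : ℝ) ≤ p := by exact_mod_cast hp2
      push_cast
      nlinarith)
  have h5 := hx₀ x hx2 a
  rw [ncard_eq] at h5
  have h6 : ((Cv (PX x) a (k * x)).card : ℝ) ≤ E.card := by exact_mod_cast ha
  refine le_trans ?_ (h5.trans h6)
  calc (N : ℝ) ^ (1 - ε) ≤ (N : ℝ) ^ (1 - 2 * δ) :=
        Real.rpow_le_rpow_of_exponent_le hNr (by linarith)
    _ ≤ (x : ℝ) ^ (1 - δ) := by
        have h7 : (N : ℝ) ^ (1 - 2 * δ) * 4 ≤ (x : ℝ) ^ (1 - δ) * 4 := by
          calc (N : ℝ) ^ (1 - 2 * δ) * 4 ≤ (N : ℝ) ^ (1 - 2 * δ) * (N : ℝ) ^ δ :=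
                mul_le_mul_of_nonneg_left h4 (by positivity)
            _ = (N : ℝ) ^ (1 - δ) := by
                rw [← Real.rpow_add hN0]
                congr 1
                ring
            _ ≤ (4 * x : ℝ) ^ (1 - δ) := Real.rpow_le_rpow hN0.le hx4r (by linarith)
            _ = (4 : ℝ) ^ (1 - δ) * (x : ℝ) ^ (1 - δ) :=
                Real.mul_rpow (by norm_num) (by linarith)
            _ ≤ 4 * (x : ℝ) ^ (1 - δ) := by
                apply mul_le_mul_of_nonneg_right _ (by positivity)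
                calc (4 : ℝ) ^ (1 - δ) ≤ (4 : ℝ) ^ (1 : ℝ) :=
                      Real.rpow_le_rpow_of_exponent_le (by norm_num) (by linarith)
                  _ = 4 := Real.rpow_one _
            _ = _ := by ring
        linarith

end Pool.Agent.H605.Fix
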