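import Pool.Agent.H605.Fix.Hash

/-!
# Arbitrary sets of differences
-/

set_option autoImplicit false

open Finset Filter

namespace Pool.Agent.H605.Fix

open Pool.Agent.H605.Web

/-- Arbitrary finite sets of differences: `|E| ≥ |D| ^ (1 - ε)` for progressions of bounded
length `k(ε)`. -/
def AllSets : Prop :=
  ∀ ε : ℝ, 0 < ε → ∃ k : ℕ, ∀ D E : Finset ℤ, D.Nonempty →
    (∀ d ∈ D, ∃ a : ℤ, ∀ j : ℕ, j < k → a + j * d ∈ E) → (D.card : ℝ) ^ (1 - ε) ≤ (E.card : ℝ)

theorem allSets_of_sets (h : FixedSets) : AllSets := by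
  classical
  intro ε hε
  obtain ⟨δ, hδ⟩ : ∃ δ, δ = min ε 1 / 2 := ⟨_, rfl⟩
  have hmin : 0 < min ε 1 := lt_min hε one_pos
  have hδ0 : 0 < δ := by rw [hδ]; positivity
  have hδ1 : 2 * δ ≤ ε := by
    rw [hδ]
    have := min_le_left ε 1
    linarith
  have hδ2 : 2 * δ ≤ 1 := by
    rw [hδ]
    have := min_le_right ε 1
    linarith
  obtain ⟨k₀, N₀, hN₀⟩ := h δ hδ0
  obtain ⟨C, hC⟩ : ∃ C : ℝ, C = ((k₀ : ℝ) + 1) ^ 2 := ⟨_, rfl⟩
  have hC1 : 1 ≤ C := by
    rw [hC]
    have : (0 : ℝ) ≤ k₀ := Nat.cast_nonneg _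
    nlinarith
  obtain ⟨s₁, hs₁⟩ := eventually_atTop.1 (ev_pow (32 * C) hδ0)
  refine ⟨max (k₀ + 1) (max s₁ (max N₀ 4)), fun D E hDne hE => ?_⟩
  obtain ⟨k, hk⟩ : ∃ k, k = max (k₀ + 1) (max s₁ (max N₀ 4)) := ⟨_, rfl⟩
  rw [← hk] at hE
  have hk1 : k₀ + 1 ≤ k := by rw [hk]; exact le_max_left _ _
  have hk2 : s₁ ≤ k := by
    rw [hk]; exact le_trans (le_max_left _ _) (le_max_right _ _)
  have hk3 : N₀ ≤ k := by
    rw [hk]
    exact le_trans (le_trans (le_max_left _ _) (le_max_right _ _)) (le_max_right _ _)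
  have hk4 : 4 ≤ k := by
    rw [hk]
    exact le_trans (le_trans (le_max_right _ _) (le_max_right _ _)) (le_max_right _ _)
  obtain ⟨s, hs⟩ : ∃ s, s = D.card := ⟨_, rfl⟩
  have hs1 : 1 ≤ s := by rw [hs]; exact Finset.card_pos.2 hDne
  have hsr : (1 : ℝ) ≤ s := by exact_mod_cast hs1
  rw [← hs]
  rcases le_or_gt k s with hks | hks
  · -- large sets
    obtain ⟨ψ, hψ1, hψ2, D', hD'1, hD'2, hD'3⟩ := exists_hash D hDne
    rw [← hs] at hψ1 hψ2 hD'2
    obtain ⟨D'', hD''⟩ : ∃ D'' : Finset ℕ, D'' = (D'.image fun d => (ψ d).toNat).erase 0 :=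
      ⟨_, rfl⟩
    obtain ⟨E', hE'⟩ : ∃ E' : Finset ℤ, E' =
      ((E ×ˢ Icc (0 : ℤ) k₀) ×ˢ Icc (0 : ℤ) k₀).image fun z =>
        ψ z.1.1 + (8 * s : ℕ) * z.1.2 - z.2 := ⟨_, rfl⟩
    have hE'c : (E'.card : ℝ) ≤ C * E.card := by
      have h1 := Finset.card_image_le (s := (E ×ˢ Icc (0 : ℤ) k₀) ×ˢ Icc (0 : ℤ) k₀)
        (f := fun z => ψ z.1.1 + (8 * s : ℕ) * z.1.2 - z.2)
      rw [← hE', card_product, card_product, Int.card_Icc] at h1
      have h2 : ((k₀ : ℤ) + 1 - 0).toNat = k₀ + 1 := by omega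
      rw [h2] at h1
      have h3 : (E'.card : ℝ) ≤ E.card * (k₀ + 1) * (k₀ + 1) := by exact_mod_cast h1
      rw [hC]
      linarith
    have hD''c : (s : ℝ) / 4 ≤ D''.card := by
      have h1 : (D'.image fun d => (ψ d).toNat).card = D'.card := by
        apply card_image_of_injOn
        intro d hd d' hd' hdd
        apply hD'3 hd hd'
        have a1 := (hψ1 d).1
        have a2 := (hψ1 d').1
        simp only at hdd
        omega
      have h2 : D'.card - 1 ≤ D''.card := by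
        rw [hD'', ← h1]
        exact Finset.pred_card_le_card_erase
      have h3 : s ≤ 4 * D''.card := by omega
      have h4 : (s : ℝ) ≤ 4 * D''.card := by exact_mod_cast h3
      linarith
    have h1 := hN₀ (8 * s) (by omega) D'' (by
      intro d hd
      rw [hD'', mem_erase, mem_image] at hd
      obtain ⟨hd0, d', hd', rfl⟩ := hd
      have := hψ1 d'
      omega) E' (by
      intro d hd
      rw [hD'', mem_erase, mem_image] at hd
      obtain ⟨hd0, d', hd', rfl⟩ := hd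
      obtain ⟨a, ha⟩ := hE d' (hD'1 hd')
      refine ⟨ψ a, fun j hj => ?_⟩
      have hj' : j ≤ k₀ := by exact_mod_cast hj
      obtain ⟨w, e, hw0, hwj, he0, hej, heq⟩ := hψ2 a d' j
      rw [hE', mem_image]
      refine ⟨((a + j * d', w), e), ?_, ?_⟩
      · rw [mem_product, mem_product, mem_Icc, mem_Icc]
        have hjk : (j : ℤ) ≤ k₀ := by exact_mod_cast hj'
        exact ⟨⟨ha j (by omega), hw0, hwj.trans hjk⟩, he0, hej.trans hjk⟩
      · simp only
        rw [Int.toNat_of_nonneg (hψ1 d').1]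
        exact heq.symm)
    obtain ⟨e, he⟩ : ∃ e : ℝ, e = E.card := ⟨_, rfl⟩
    have he0 : 0 ≤ e := by rw [he]; exact Nat.cast_nonneg _
    rw [← he] at hE'c ⊢
    have h2 : (s : ℝ) / 4 ≤ 8 * (s : ℝ) ^ δ * (C * e) := by
      refine hD''c.trans (h1.trans ?_)
      have h3 : (((8 * s : ℕ) : ℝ)) ^ δ ≤ 8 * (s : ℝ) ^ δ := by
        push_cast
        rw [Real.mul_rpow (by norm_num) (by linarith)]
        apply mul_le_mul_of_nonneg_right _ (by positivity)
        calc (8 : ℝ) ^ δ ≤ (8 : ℝ) ^ (1 : ℝ) :=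
              Real.rpow_le_rpow_of_exponent_le (by norm_num) (by linarith)
          _ = 8 := Real.rpow_one _
      exact mul_le_mul h3 hE'c (Nat.cast_nonneg _) (by positivity)
    have h3 := hs₁ s (by omega)
    have hs0 : (0 : ℝ) < s := by linarith
    have h4 : (s : ℝ) ^ (1 - ε) * ((s : ℝ) ^ δ * (s : ℝ) ^ δ) ≤ e * ((s : ℝ) ^ δ * (s : ℝ) ^ δ) := by
      calc (s : ℝ) ^ (1 - ε) * ((s : ℝ) ^ δ * (s : ℝ) ^ δ) = (s : ℝ) ^ (1 - ε + (δ + δ)) := by
            rw [← Real.rpow_add hs0, ← Real.rpow_add hs0]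
        _ ≤ (s : ℝ) ^ (1 : ℝ) := Real.rpow_le_rpow_of_exponent_le hsr (by linarith)
        _ = s := Real.rpow_one _
        _ ≤ 32 * C * ((s : ℝ) ^ δ * e) := by linarith
        _ ≤ (s : ℝ) ^ δ * ((s : ℝ) ^ δ * e) := mul_le_mul_of_nonneg_right h3 (by positivity)
        _ = _ := by ring
    exact le_of_mul_le_mul_right h4 (by positivity)
  · -- small sets
    have h1 : (s : ℝ) ^ (1 - ε) ≤ s := by
      calc (s : ℝ) ^ (1 - ε) ≤ (s : ℝ) ^ (1 : ℝ) :=
            Real.rpow_le_rpow_of_exponent_le hsr (by linarith)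
        _ = s := Real.rpow_one _
    refine h1.trans ?_
    have h2 : s ≤ E.card := by
      by_cases h0 : ∃ d ∈ D, d ≠ 0
      · obtain ⟨d, hd, hd0⟩ := h0
        obtain ⟨a, ha⟩ := hE d hd
        have h3 : (range k).card ≤ E.card := by
          apply Finset.card_le_card_of_injOn (fun j : ℕ => a + j * d)
          · intro j hj
            exact ha j (mem_range.1 (mem_coe.1 hj))
          · intro i _ j _ hij
            simp only at hij
            have h4 : ((i : ℤ) - j) * d = 0 := by linear_combination hij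
            rcases mul_eq_zero.1 h4 with h5 | h5
            · omega
            · exact absurd h5 hd0
        rw [card_range] at h3
        omega
      · push Not at h0
        obtain ⟨d, hd⟩ := hDne
        have h3 : D ⊆ {0} := fun x hx => mem_singleton.2 (h0 x hx)
        have h4 := Finset.card_le_card h3
        rw [card_singleton] at h4
        obtain ⟨a, ha⟩ := hE d hd
        have h5 : 0 < E.card := Finset.card_pos.2 ⟨_, ha 0 (by omega)⟩
        omega
    exact_mod_cast h2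

end Pool.Agent.H605.Fix
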